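import Mathlib

/-!
# Local search allocation: definitions

Balls are allocated one after the other to the vertices of a finite graph `G`.  A ball which is at
the vertex `v` moves to a neighbour of minimum load (ties are broken uniformly at random) as long
as `v` has a neighbour whose load is strictly smaller than the load of `v`.
-/

namespace Helper43.LSA

open Classical
open scoped ENNReal

noncomputable section

variable {V : Type} [Fintype V]

/-! ### Graphs -/

/-- the neighbours of `v` -/
def nbr (G : SimpleGraph V) (v : V) : Finset V := Finset.univ.filter fun w => G.Adj v w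

/-- the closed neighbourhood of `v` -/
def cn (G : SimpleGraph V) (v : V) : Finset V := Finset.univ.filter fun w => w = v ∨ G.Adj v w

/-- the ball of radius `r` around `u`, for the graph distance -/
def ball (G : SimpleGraph V) (u : V) (r : ℕ) : Finset V :=
  Finset.univ.filter fun v => G.edist u v ≤ r

/-- all degrees are `D` -/
def Reg (G : SimpleGraph V) (D : ℕ) : Prop := ∀ v, (nbr G v).card = D

/-- vertex-transitive graphs -/
def VertexTransitive (G : SimpleGraph V) : Prop := ∀ u v : V, ∃ φ : G ≃g G, φ u = v

/-- the growth radius `R₁` -/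
def R₁ (G : SimpleGraph V) : ℕ :=
  sInf {r : ℕ | ∀ u : V, Real.log (Fintype.card V) ≤ r * (ball G u r).card * Real.log r}

/-- the growth radius `R₂` -/
def R₂ (G : SimpleGraph V) : ℕ :=
  sInf {r : ℕ | ∀ u : V, Real.log (Fintype.card V) ≤ r * (ball G u r).card}

/-! ### The walk of a ball -/

/-- the neighbours of `v` of minimum load -/
def lowNbr (G : SimpleGraph V) (X : V → ℕ) (v : V) : Finset V :=
  (nbr G v).filter fun w => ∀ z ∈ nbr G v, X w ≤ X z

/-- `v` has a neighbour whose load is strictly smaller than the load of `v` -/
def CanMove (G : SimpleGraph V) (X : V → ℕ) (v : V) : Prop := ∃ w, G.Adj v w ∧ X w < X v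

theorem lowNbr_nonempty {G : SimpleGraph V} {X : V → ℕ} {v : V} (h : CanMove G X v) :
    (lowNbr G X v).Nonempty := by
  obtain ⟨w, hw, _⟩ := h
  have hne : (nbr G v).Nonempty := ⟨w, by simp [nbr, hw]⟩
  obtain ⟨m, hm, hmin⟩ := Finset.exists_min_image (nbr G v) X hne
  exact ⟨m, Finset.mem_filter.2 ⟨hm, hmin⟩⟩

/-- The law of the final position of a ball which is at `v` when the loads are `X`: if `v` has a
neighbour of strictly smaller load, then the ball moves to a uniformly random neighbour of minimum
load and continues from there; otherwise it stays at `v`.  (The second branch of the inner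
conditional never occurs.) -/
def walk (G : SimpleGraph V) (X : V → ℕ) (v : V) : PMF V :=
  if h : CanMove G X v then
    (PMF.uniformOfFinset (lowNbr G X v) (lowNbr_nonempty h)).bind fun w =>
      if _hw : X w < X v then walk G X w else PMF.pure w
  else PMF.pure v
termination_by X v

/-- one more ball at `w` -/
def bump (X : V → ℕ) (w : V) : V → ℕ := Function.update X w (X w + 1)

/-- The law of the loads after the next ball, which is born at a random vertex with law `q`. -/
def stepLaw (G : SimpleGraph V) (q : PMF V) (X : V → ℕ) : PMF (V → ℕ) :=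
  q.bind fun u => (walk G X u).map (bump X)

/-- the uniform law of the birth vertex -/
def unif (V : Type) [Fintype V] [Nonempty V] : PMF V := PMF.uniformOfFintype V

/-- The law of the loads after `m` balls, starting with the loads `X`, when the birth vertices are
independent with law `q`. -/
def chain (G : SimpleGraph V) (q : PMF V) : ℕ → (V → ℕ) → PMF (V → ℕ)
  | 0, X => PMF.pure X
  | m + 1, X => (chain G q m X).bind (stepLaw G q)

/-! ### The process -/

/-- `X m` are the loads after `m` balls of local search allocation, starting with no balls: a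
Markov chain with the transition probabilities `stepLaw`. -/
structure IsLocalSearch [Nonempty V] (G : SimpleGraph V) {Ω : Type} [MeasurableSpace Ω]
    (μ : MeasureTheory.Measure Ω) (X : ℕ → Ω → V → ℕ) : Prop where
  meas : ∀ m, Measurable (X m)
  init : ∀ ω, X 0 ω = 0
  markov : ∀ (m : ℕ) (x : ℕ → V → ℕ), μ {ω | ∀ i ≤ m + 1, X i ω = x i} =
    μ {ω | ∀ i ≤ m, X i ω = x i} * stepLaw G (unif V) (x m) (x (m + 1))

/-- the maximum load after `m` balls -/
def Xmax {Ω : Type} (X : ℕ → Ω → V → ℕ) (m : ℕ) (ω : Ω) : ℕ := Finset.univ.sup (X m ω)

/-- all vertices are covered at some time -/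
def Covers {Ω : Type} (X : ℕ → Ω → V → ℕ) (ω : Ω) : Prop := ∃ m, ∀ v, 1 ≤ X m ω v

/-- the cover time -/
def Tcov {Ω : Type} (X : ℕ → Ω → V → ℕ) (ω : Ω) : ℕ := sInf {m | ∀ v, 1 ≤ X m ω v}

/-! ### Expectations -/

/-- the expectation of a nonnegative function -/
def ex {α : Type} (P : PMF α) (f : α → ℝ≥0∞) : ℝ≥0∞ := ∑' a, P a * f a

/-- the probability of an event -/
def pr {α : Type} (P : PMF α) (S : α → Prop) : ℝ≥0∞ := ex P fun a => if S a then 1 else 0

/-- loads of neighbours differ by at most one -/
def Smooth (G : SimpleGraph V) (X : V → ℕ) : Prop := ∀ u v, G.Adj u v → X u ≤ X v + 1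

end

end Helper43.LSA
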