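import Mathlib
import Pool.Agent.Helper43_LSA.Defs

/-!
# Local search allocation: basic facts about expectations and about the walk of a ball
-/

namespace Helper43.LSA

open Classical
open scoped ENNReal

set_option linter.unusedSectionVars false

noncomputable section

variable {V : Type} [Fintype V]

/-! ### Expectations -/

section Ex

variable {α β : Type}

theorem ex_pure (a : α) (f : α → ℝ≥0∞) : ex (PMF.pure a) f = f a := by
  unfold ex
  rw [tsum_eq_single a]
  · simp
  · intro b hb
    simp [PMF.pure_apply, hb]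

theorem ex_bind (P : PMF α) (k : α → PMF β) (f : β → ℝ≥0∞) :
    ex (P.bind k) f = ex P fun a => ex (k a) f := by
  unfold ex
  simp only [PMF.bind_apply]
  simp_rw [← ENNReal.tsum_mul_right]
  rw [ENNReal.tsum_comm]
  refine tsum_congr fun a => ?_
  rw [← ENNReal.tsum_mul_left]
  refine tsum_congr fun b => ?_
  rw [mul_assoc]

theorem ex_map (P : PMF α) (g : α → β) (f : β → ℝ≥0∞) :
    ex (P.map g) f = ex P fun a => f (g a) := by
  rw [PMF.map, ex_bind]
  simp [ex_pure]

theorem ex_mono (P : PMF α) {f g : α → ℝ≥0∞} (h : ∀ a ∈ P.support, f a ≤ g a) :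
    ex P f ≤ ex P g := by
  unfold ex
  refine ENNReal.tsum_le_tsum fun a => ?_
  by_cases ha : a ∈ P.support
  · exact mul_le_mul_right (h a ha) _
  · have : P a = 0 := by simpa [PMF.mem_support_iff] using ha
    simp [this]

theorem ex_congr (P : PMF α) {f g : α → ℝ≥0∞} (h : ∀ a ∈ P.support, f a = g a) :
    ex P f = ex P g :=
  le_antisymm (ex_mono P fun a ha => (h a ha).le) (ex_mono P fun a ha => (h a ha).ge)

theorem ex_const (P : PMF α) (c : ℝ≥0∞) : ex P (fun _ => c) = c := by
  unfold ex
  rw [ENNReal.tsum_mul_right, PMF.tsum_coe, one_mul]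

theorem ex_add (P : PMF α) (f g : α → ℝ≥0∞) :
    ex P (fun a => f a + g a) = ex P f + ex P g := by
  unfold ex
  rw [← ENNReal.tsum_add]
  exact tsum_congr fun a => by rw [mul_add]

theorem ex_mul_left (P : PMF α) (c : ℝ≥0∞) (f : α → ℝ≥0∞) :
    ex P (fun a => c * f a) = c * ex P f := by
  unfold ex
  rw [← ENNReal.tsum_mul_left]
  exact tsum_congr fun a => by rw [mul_left_comm]

theorem ex_mul_right (P : PMF α) (c : ℝ≥0∞) (f : α → ℝ≥0∞) :
    ex P (fun a => f a * c) = ex P f * c := by
  unfold ex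
  rw [← ENNReal.tsum_mul_right]
  exact tsum_congr fun a => by rw [mul_assoc]

theorem ex_finset_sum {ι : Type} (P : PMF α) (s : Finset ι) (f : ι → α → ℝ≥0∞) :
    ex P (fun a => ∑ i ∈ s, f i a) = ∑ i ∈ s, ex P (f i) := by
  induction s using Finset.induction_on with
  | empty => simpa using ex_const P 0
  | insert i s hi ih =>
    simp only [Finset.sum_insert hi]
    rw [ex_add, ih]

theorem ex_fintype [Fintype α] (P : PMF α) (f : α → ℝ≥0∞) : ex P f = ∑ a, P a * f a := by
  unfold ex
  exact tsum_fintype _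

theorem pr_le_one (P : PMF α) (S : α → Prop) : pr P S ≤ 1 := by
  unfold pr
  calc ex P (fun a => if S a then 1 else 0) ≤ ex P fun _ => 1 :=
        ex_mono P fun a _ => by split <;> simp
    _ = 1 := ex_const P 1

theorem pr_mono (P : PMF α) {S T : α → Prop} (h : ∀ a ∈ P.support, S a → T a) :
    pr P S ≤ pr P T := by
  unfold pr
  refine ex_mono P fun a ha => ?_
  by_cases hs : S a
  · simp [hs, h a ha hs]
  · simp [hs]

theorem pr_or_le (P : PMF α) (S T : α → Prop) :
    pr P (fun a => S a ∨ T a) ≤ pr P S + pr P T := by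
  unfold pr
  rw [← ex_add]
  refine ex_mono P fun a _ => ?_
  by_cases hs : S a <;> by_cases ht : T a <;> simp [hs, ht]

theorem pr_exists_le {ι : Type} (P : PMF α) (s : Finset ι) (S : ι → α → Prop) :
    pr P (fun a => ∃ i ∈ s, S i a) ≤ ∑ i ∈ s, pr P (S i) := by
  unfold pr
  rw [← ex_finset_sum]
  refine ex_mono P fun a _ => ?_
  by_cases h : ∃ i ∈ s, S i a
  · obtain ⟨i, hi, hS⟩ := h
    rw [if_pos ⟨i, hi, hS⟩]
    calc (1 : ℝ≥0∞) = if S i a then 1 else 0 := by simp [hS]
      _ ≤ ∑ i ∈ s, if S i a then 1 else 0 :=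
          Finset.single_le_sum (f := fun i => if S i a then (1 : ℝ≥0∞) else 0)
            (fun _ _ => zero_le) hi
  · simp [h]

theorem pr_add_not (P : PMF α) (S : α → Prop) : pr P S + pr P (fun a => ¬ S a) = 1 := by
  unfold pr
  rw [← ex_add]
  conv_rhs => rw [← ex_const P 1]
  refine ex_congr P fun a _ => ?_
  by_cases hs : S a
  · rw [if_pos hs, if_neg (not_not.2 hs), add_zero]
  · rw [if_neg hs, if_pos hs, zero_add]

/-- Markov inequality -/
theorem markov (P : PMF α) (f : α → ℝ≥0∞) (c : ℝ≥0∞) :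
    c * pr P (fun a => c ≤ f a) ≤ ex P f := by
  unfold pr
  rw [← ex_mul_left]
  refine ex_mono P fun a _ => ?_
  by_cases h : c ≤ f a <;> simp [h]

end Ex

/-! ### Graph basics -/

theorem mem_nbr {G : SimpleGraph V} {v w : V} : w ∈ nbr G v ↔ G.Adj v w := by simp [nbr]

theorem mem_cn {G : SimpleGraph V} {v w : V} : w ∈ cn G v ↔ w = v ∨ G.Adj v w := by simp [cn]

theorem self_mem_cn (G : SimpleGraph V) (v : V) : v ∈ cn G v := by simp [cn]

theorem nbr_subset_cn (G : SimpleGraph V) (v : V) : nbr G v ⊆ cn G v := by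
  intro w hw
  rw [mem_nbr] at hw
  exact mem_cn.2 (Or.inr hw)

theorem mem_cn_comm {G : SimpleGraph V} {v w : V} : w ∈ cn G v ↔ v ∈ cn G w := by
  rw [mem_cn, mem_cn, G.adj_comm, eq_comm]

theorem mem_nbr_comm {G : SimpleGraph V} {v w : V} : w ∈ nbr G v ↔ v ∈ nbr G w := by
  rw [mem_nbr, mem_nbr, G.adj_comm]

theorem cn_eq (G : SimpleGraph V) (v : V) : cn G v = insert v (nbr G v) := by
  ext w; simp [mem_cn, mem_nbr]

theorem not_mem_nbr_self (G : SimpleGraph V) (v : V) : v ∉ nbr G v := by simp [nbr]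

theorem card_cn {G : SimpleGraph V} {D : ℕ} (hG : Reg G D) (v : V) : (cn G v).card = D + 1 := by
  rw [cn_eq, Finset.card_insert_of_notMem (not_mem_nbr_self G v), hG v]

theorem mem_ball {G : SimpleGraph V} {u v : V} {r : ℕ} : v ∈ ball G u r ↔ G.edist u v ≤ r := by
  simp [ball]

/-! ### The walk -/

theorem mem_lowNbr {G : SimpleGraph V} {X : V → ℕ} {v w : V} :
    w ∈ lowNbr G X v ↔ G.Adj v w ∧ ∀ z, G.Adj v z → X w ≤ X z := by
  simp [lowNbr, mem_nbr]

theorem lowNbr_lt {G : SimpleGraph V} {X : V → ℕ} {v w : V} (h : CanMove G X v)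
    (hw : w ∈ lowNbr G X v) : X w < X v := by
  obtain ⟨z, hz, hlt⟩ := h
  exact lt_of_le_of_lt ((mem_lowNbr.1 hw).2 z hz) hlt

theorem walk_stay {G : SimpleGraph V} {X : V → ℕ} {v : V} (h : ¬ CanMove G X v) :
    walk G X v = PMF.pure v := by
  rw [walk]; simp [h]

theorem walk_move {G : SimpleGraph V} {X : V → ℕ} {v : V} (h : CanMove G X v) :
    walk G X v =
      (PMF.uniformOfFinset (lowNbr G X v) (lowNbr_nonempty h)).bind fun w => walk G X w := by
  rw [walk, dif_pos h]
  refine PMF.ext fun z => ?_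
  simp only [PMF.bind_apply]
  refine tsum_congr fun w => ?_
  by_cases hw : w ∈ lowNbr G X v
  · rw [dif_pos (lowNbr_lt h hw)]
  · have : (PMF.uniformOfFinset (lowNbr G X v) (lowNbr_nonempty h)) w = 0 := by
      rw [PMF.uniformOfFinset_apply_of_notMem _ hw]
    rw [this, zero_mul, zero_mul]

/-- expectation over the walk, first step -/
theorem ex_walk_move {G : SimpleGraph V} {X : V → ℕ} {v : V} (h : CanMove G X v)
    (f : V → ℝ≥0∞) :
    ex (walk G X v) f =
      ∑ w ∈ lowNbr G X v, ((lowNbr G X v).card : ℝ≥0∞)⁻¹ * ex (walk G X w) f := by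
  rw [walk_move h, ex_bind, ex_fintype]
  rw [← Finset.sum_subset (Finset.subset_univ (lowNbr G X v))]
  · refine Finset.sum_congr rfl fun w hw => ?_
    rw [PMF.uniformOfFinset_apply_of_mem _ hw]
  · intro w _ hw
    rw [PMF.uniformOfFinset_apply_of_notMem _ hw, zero_mul]

theorem ex_walk_stay {G : SimpleGraph V} {X : V → ℕ} {v : V} (h : ¬ CanMove G X v)
    (f : V → ℝ≥0∞) : ex (walk G X v) f = f v := by
  rw [walk_stay h, ex_pure]

/-- induction on the load of the current vertex -/
theorem walk_induction (G : SimpleGraph V) (X : V → ℕ) (P : V → Prop)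
    (stay : ∀ v, ¬ CanMove G X v → P v)
    (move : ∀ v, CanMove G X v → (∀ w ∈ lowNbr G X v, P w) → P v) (v : V) : P v := by
  have key : ∀ n : ℕ, ∀ v, X v = n → P v := by
    intro n
    induction n using Nat.strong_induction_on with
    | _ n ih =>
      intro v hv
      by_cases h : CanMove G X v
      · refine move v h fun w hw => ih (X w) ?_ w rfl
        rw [← hv]
        exact lowNbr_lt h hw
      · exact stay v h
  exact key _ v rfl

theorem support_walk_move {G : SimpleGraph V} {X : V → ℕ} {v : V} (h : CanMove G X v) (z : V) :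
    z ∈ (walk G X v).support ↔ ∃ w ∈ lowNbr G X v, z ∈ (walk G X w).support := by
  rw [walk_move h, PMF.mem_support_bind_iff]
  simp [PMF.mem_support_uniformOfFinset_iff]

/-- a vertex where a ball is placed has no neighbour of strictly smaller load -/
theorem not_canMove_of_mem_support {G : SimpleGraph V} {X : V → ℕ} {v w : V}
    (hw : w ∈ (walk G X v).support) : ¬ CanMove G X w := by
  revert w
  refine walk_induction G X (fun v => ∀ {w}, w ∈ (walk G X v).support → ¬ CanMove G X w)
    ?_ ?_ v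
  · intro v h w hw
    rw [walk_stay h] at hw
    simp only [PMF.support_pure, Set.mem_singleton_iff] at hw
    rw [hw]; exact h
  · intro v h ih w hw
    obtain ⟨z, hz, hz2⟩ := (support_walk_move h w).1 hw
    exact ih z hz hz2

theorem load_le_of_adj_of_mem_support {G : SimpleGraph V} {X : V → ℕ} {v w z : V}
    (hw : w ∈ (walk G X v).support) (hz : G.Adj w z) : X w ≤ X z := by
  by_contra hlt
  exact not_canMove_of_mem_support hw ⟨z, hz, not_le.1 hlt⟩

/-- the final load is at most the initial load -/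
theorem load_le_of_mem_support {G : SimpleGraph V} {X : V → ℕ} {v w : V}
    (hw : w ∈ (walk G X v).support) : X w ≤ X v := by
  revert w
  refine walk_induction G X (fun v => ∀ {w}, w ∈ (walk G X v).support → X w ≤ X v) ?_ ?_ v
  · intro v h w hw
    rw [walk_stay h] at hw
    simp only [PMF.support_pure, Set.mem_singleton_iff] at hw
    rw [hw]
  · intro v h ih w hw
    obtain ⟨z, hz, hz2⟩ := (support_walk_move h w).1 hw
    exact (ih z hz hz2).trans (lowNbr_lt h hz).le

/-- the walk stays in every set which is closed under moves -/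
theorem support_walk_subset {G : SimpleGraph V} {X : V → ℕ} (S : Set V)
    (hS : ∀ v ∈ S, CanMove G X v → ∀ w ∈ lowNbr G X v, w ∈ S) {v w : V} (hv : v ∈ S)
    (hw : w ∈ (walk G X v).support) : w ∈ S := by
  revert hv w
  refine walk_induction G X (fun v => ∀ {w}, v ∈ S → w ∈ (walk G X v).support → w ∈ S) ?_ ?_ v
  · intro v h w hv hw
    rw [walk_stay h] at hw
    simp only [PMF.support_pure, Set.mem_singleton_iff] at hw
    rw [hw]; exact hv
  · intro v h ih w hv hw
    obtain ⟨z, hz, hz2⟩ := (support_walk_move h w).1 hw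
    exact ih z hz (hS v hv h z hz) hz2

/-! ### Loads -/

@[simp] theorem bump_self (X : V → ℕ) (w : V) : bump X w w = X w + 1 := by simp [bump]

theorem bump_of_ne (X : V → ℕ) {w v : V} (h : v ≠ w) : bump X w v = X v := by simp [bump, h]

theorem bump_apply (X : V → ℕ) (w v : V) : bump X w v = if v = w then X w + 1 else X v := by
  by_cases h : v = w
  · subst h; simp
  · simp [bump, h]

theorem le_bump (X : V → ℕ) (w : V) : X ≤ bump X w := by
  intro v
  rw [bump_apply]
  by_cases h : v = w
  · subst h; rw [if_pos rfl]; exact Nat.le_succ _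
  · rw [if_neg h]

theorem Smooth.bump {G : SimpleGraph V} {X : V → ℕ} (hX : Smooth G X) {w : V}
    (hw : ∀ z, G.Adj w z → X w ≤ X z) : Smooth G (bump X w) := by
  intro u v huv
  have h1 := hX u v huv
  rw [bump_apply, bump_apply]
  by_cases hu : u = w
  · subst hu
    have hvu : v ≠ u := fun h => by subst h; exact G.loopless.irrefl _ huv
    rw [if_pos rfl, if_neg hvu]
    have := hw v huv
    omega
  · rw [if_neg hu]
    by_cases hv : v = w
    · subst hv; rw [if_pos rfl]; omega
    · rw [if_neg hv]; exact h1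

theorem smooth_zero (G : SimpleGraph V) : Smooth G (0 : V → ℕ) := by
  intro u v _; simp

theorem mem_support_stepLaw {G : SimpleGraph V} {q : PMF V} {X X' : V → ℕ}
    (h : X' ∈ (stepLaw G q X).support) :
    ∃ u ∈ q.support, ∃ w ∈ (walk G X u).support, X' = bump X w := by
  unfold stepLaw at h
  rw [PMF.mem_support_bind_iff] at h
  obtain ⟨u, hu, h⟩ := h
  rw [PMF.mem_support_map_iff] at h
  obtain ⟨w, hw, h⟩ := h
  exact ⟨u, hu, w, hw, h.symm⟩

theorem smooth_of_stepLaw {G : SimpleGraph V} {q : PMF V} {X X' : V → ℕ} (hX : Smooth G X)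
    (h : X' ∈ (stepLaw G q X).support) : Smooth G X' := by
  obtain ⟨u, _, w, hw, rfl⟩ := mem_support_stepLaw h
  exact hX.bump fun z hz => load_le_of_adj_of_mem_support hw hz

theorem le_of_stepLaw {G : SimpleGraph V} {q : PMF V} {X X' : V → ℕ}
    (h : X' ∈ (stepLaw G q X).support) : X ≤ X' := by
  obtain ⟨u, _, w, hw, rfl⟩ := mem_support_stepLaw h
  exact le_bump X w

theorem smooth_of_chain {G : SimpleGraph V} {q : PMF V} {m : ℕ} {X X' : V → ℕ} (hX : Smooth G X)
    (h : X' ∈ (chain G q m X).support) : Smooth G X' := by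
  induction m generalizing X' with
  | zero =>
    simp only [chain, PMF.support_pure, Set.mem_singleton_iff] at h
    rw [h]; exact hX
  | succ m ih =>
    simp only [chain] at h
    rw [PMF.mem_support_bind_iff] at h
    obtain ⟨Y, hY, h⟩ := h
    exact smooth_of_stepLaw (ih hY) h

theorem le_of_chain {G : SimpleGraph V} {q : PMF V} {m : ℕ} {X X' : V → ℕ}
    (h : X' ∈ (chain G q m X).support) : X ≤ X' := by
  induction m generalizing X' with
  | zero =>
    simp only [chain, PMF.support_pure, Set.mem_singleton_iff] at h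
    rw [h]
  | succ m ih =>
    simp only [chain] at h
    rw [PMF.mem_support_bind_iff] at h
    obtain ⟨Y, hY, h⟩ := h
    exact (ih hY).trans (le_of_stepLaw h)

/-- expectation after one step -/
theorem ex_stepLaw (G : SimpleGraph V) (q : PMF V) (X : V → ℕ) (f : (V → ℕ) → ℝ≥0∞) :
    ex (stepLaw G q X) f = ∑ u, q u * ex (walk G X u) fun w => f (bump X w) := by
  unfold stepLaw
  rw [ex_bind, ex_fintype]
  simp_rw [ex_map]

theorem ex_chain_zero (G : SimpleGraph V) (q : PMF V) (X : V → ℕ) (f : (V → ℕ) → ℝ≥0∞) :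
    ex (chain G q 0 X) f = f X := by
  simp [chain, ex_pure]

theorem ex_chain_succ (G : SimpleGraph V) (q : PMF V) (m : ℕ) (X : V → ℕ)
    (f : (V → ℕ) → ℝ≥0∞) :
    ex (chain G q (m + 1) X) f = ex (chain G q m X) fun Y => ex (stepLaw G q Y) f := by
  simp only [chain]
  rw [ex_bind]

theorem chain_add (G : SimpleGraph V) (q : PMF V) (l m : ℕ) (X : V → ℕ) :
    chain G q (l + m) X = (chain G q l X).bind (chain G q m) := by
  induction m with
  | zero => simp [chain]
  | succ m ih =>
    rw [← Nat.add_assoc]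
    simp only [chain]
    rw [ih, PMF.bind_bind]

/-- supermartingales: if `E (F (i+1) (X_{i+1}) | X_i) ≤ F i (X_i)` for smooth `X_i`, then
`E (F m (X_m)) ≤ F 0 (X_0)` -/
theorem ex_chain_le {G : SimpleGraph V} {q : PMF V} {m : ℕ} {X : V → ℕ} (hX : Smooth G X)
    (F : ℕ → (V → ℕ) → ℝ≥0∞)
    (h : ∀ i < m, ∀ Y, Smooth G Y → ex (stepLaw G q Y) (F (i + 1)) ≤ F i Y) :
    ex (chain G q m X) (F m) ≤ F 0 X := by
  induction m with
  | zero => rw [ex_chain_zero]
  | succ m ih =>
    rw [ex_chain_succ]
    calc ex (chain G q m X) (fun Y => ex (stepLaw G q Y) (F (m + 1)))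
        ≤ ex (chain G q m X) (F m) :=
          ex_mono _ fun Y hY => h m (Nat.lt_succ_self m) Y (smooth_of_chain hX hY)
      _ ≤ F 0 X := ih fun i hi => h i (hi.trans (Nat.lt_succ_self m))

end

end Helper43.LSA
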