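import Mathlib
import Pool.Agent.Helper43_LSA.Base

/-!
# Local search allocation: the statements of the modules

Every module is a proposition here; a module file proves its proposition, possibly assuming other
ones as hypotheses.
-/

namespace Helper43.LSA

open Classical
open scoped ENNReal

noncomputable section

/-! ### Auxiliary notions -/

section Aux

variable {V : Type} [Fintype V]

/-- closed neighbourhood of a set -/
def cns (G : SimpleGraph V) (A : Finset V) : Finset V := A.biUnion (cn G)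

/-- distinct vertices at distance at most `r` -/
def Near (G : SimpleGraph V) (r : ℕ) (u v : V) : Prop := u ≠ v ∧ G.edist u v ≤ r

/-- `W` is rooted in `R`: every element of `W` is joined inside `W` to a point of `R ∩ W` -/
def Rooted (Γ : V → V → Prop) (R W : Finset V) : Prop :=
  ∀ w ∈ W, ∃ r ∈ R, r ∈ W ∧ Relation.ReflTransGen (fun a b => Γ a b ∧ b ∈ W) r w

/-- `T` is the disjoint union of the nonempty pieces `Gp w ⊆ N[w]`, `w ∈ W`, where `W` is rooted
in `R` for the relation `distance ≤ 4` -/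
structure Pieces (G : SimpleGraph V) (R T W : Finset V) (Gp : V → Finset V) : Prop where
  rooted : Rooted (Near G 4) R W
  sub : ∀ w ∈ W, Gp w ⊆ cn G w
  ne : ∀ w ∈ W, (Gp w).Nonempty
  disj : (W : Set V).PairwiseDisjoint Gp
  union : W.biUnion Gp = T

/-- vertices of load at least `b` -/
def hiSet (X : V → ℕ) (b : ℕ) : Finset V := Finset.univ.filter fun v => b ≤ X v

/-- vertices of load at most `k` -/
def lowSet (X : V → ℕ) (k : ℕ) : Finset V := Finset.univ.filter fun v => X v ≤ k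

/-- `T` is closed: no vertex within distance 3 of `T` has a large fresh part -/
def Closed (G : SimpleGraph V) (D b : ℕ) (X : V → ℕ) (T : Finset V) : Prop :=
  ∀ w, (∃ t ∈ T, G.edist t w ≤ 3) →
    (nbr G w ∩ hiSet X b) \ T = ∅ ∨ 8 * ((nbr G w ∩ hiSet X b) \ T).card < D

/-- the vertices whose closed neighbourhood is almost contained in `T` -/
def BdSet (G : SimpleGraph V) (D : ℕ) (T : Finset V) : Finset V :=
  Finset.univ.filter fun z => cn G z \ T = ∅ ∨ 8 * (cn G z \ T).card < D + 1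

/-- the excess above level `b - 1` -/
def mup (b : ℕ) (X : V → ℕ) (A : Finset V) : ℕ := ∑ w ∈ A, (X w + 1 - b)

/-- the number `(D+1)^{-4}` -/
def dl (D : ℕ) : ℝ≥0∞ := (((D : ℝ≥0∞) + 1) ^ 4)⁻¹

/-- the vertices which are joined to a point of `A` by a path of vertices of load `< k` -/
def Cl (G : SimpleGraph V) (k : ℕ) (X : V → ℕ) (A : Finset V) : Finset V :=
  Finset.univ.filter fun w =>
    ∃ r ∈ A, X r < k ∧ Relation.ReflTransGen (fun a b => G.Adj a b ∧ X b < k) r w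

/-- the total deficit below level `k` of the components of `{X < k}` which meet `A` -/
def mlow (G : SimpleGraph V) (k : ℕ) (X : V → ℕ) (A : Finset V) : ℕ :=
  ∑ w ∈ Cl G k X A, (k - X w)

/-- the number `2 (D+1)^{-3}` -/
def dl3 (D : ℕ) : ℝ≥0∞ := 2 * (((D : ℝ≥0∞) + 1) ^ 3)⁻¹

/-- admissible dual variables -/
def Adm (G : SimpleGraph V) (D : ℕ) (ε : ℝ) (T : Finset V) (α : V → ℝ) : Prop :=
  (∀ z ∈ T, α z ≤ 16) ∧ ∀ (y : V) (θ : ℝ), θ ≤ 16 →
    ∑ z ∈ cn G y ∩ T, max (θ - α z) 0 ≤ 8 * (ε * D) * Real.exp (θ / 8)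

/-- the functional `Φ_ε(T)` -/
def Phi (G : SimpleGraph V) (D : ℕ) (ε : ℝ) (T : Finset V) : ℝ :=
  sInf {s : ℝ | ∃ α : V → ℝ, Adm G D ε T α ∧ s = ∑ z ∈ T, α z}

/-- `min(1, |N[u] ∩ T|/(εD))` -/
def mm (G : SimpleGraph V) (D : ℕ) (ε : ℝ) (T : Finset V) (u : V) : ℝ :=
  min 1 (((cn G u ∩ T).card : ℝ) / (ε * D))

/-- crowded points of `T` -/
def crowd (G : SimpleGraph V) (D : ℕ) (T U : Finset V) : Finset V :=
  T.filter fun z => D < 4 * (nbr G z ∩ (U \ T)).card

/-- the sets `T` over which the lower potential is summed -/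
def fam (G : SimpleGraph V) (k : ℕ) (X : V → ℕ) (A : Finset V) : Finset (Finset V) :=
  Finset.univ.filter fun T => T ⊆ lowSet X k ∧ Rooted (Near G 2) A T

/-- the rate at which `T` is hit (times `n`) -/
def rate (G : SimpleGraph V) (k : ℕ) (X : V → ℕ) (T : Finset V) : ℝ :=
  T.card + ∑ u ∈ (lowSet X k)ᶜ,
    ((nbr G u ∩ T).card : ℝ) / ((nbr G u ∩ lowSet X k).card : ℝ)

/-- independent birth vertices -/
def iid (q : PMF V) : ℕ → PMF (List V)
  | 0 => PMF.pure []
  | m + 1 => q.bind fun u => (iid q m).map fun l => u :: l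

/-- the law of the loads after balls born at the vertices of a list -/
def runL (G : SimpleGraph V) : List V → (V → ℕ) → PMF (V → ℕ)
  | [], X => PMF.pure X
  | u :: l, X => (walk G X u).bind fun w => runL G l (bump X w)

end Aux

/-! ### Geometry -/

/-- Module GEO: balls, degrees -/
structure GeoStmt : Prop where
  ball_zero : ∀ (V : Type) [Fintype V] (G : SimpleGraph V) (u : V), ball G u 0 = {u}
  ball_succ : ∀ (V : Type) [Fintype V] (G : SimpleGraph V) (u : V) (r : ℕ),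
    ball G u (r + 1) = cns G (ball G u r)
  ball_add : ∀ (V : Type) [Fintype V] (G : SimpleGraph V) (u : V) (r s : ℕ),
    ball G u (r + s) = (ball G u r).biUnion fun v => ball G v s
  ball_comm : ∀ (V : Type) [Fintype V] (G : SimpleGraph V) (u v : V) (r : ℕ),
    v ∈ ball G u r ↔ u ∈ ball G v r
  near4 : ∀ (V : Type) [Fintype V] (G : SimpleGraph V) (D : ℕ), Reg G D → ∀ v : V,
    (Finset.univ.filter fun w => Near G 4 v w).card + 1 ≤ (D + 1) ^ 4
  reg_of_trans : ∀ (V : Type) [Fintype V] [Nonempty V] (G : SimpleGraph V),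
    VertexTransitive G → ∃ D, Reg G D
  card_ball_eq : ∀ (V : Type) [Fintype V] (G : SimpleGraph V), VertexTransitive G →
    ∀ (u v : V) (r : ℕ), (ball G u r).card = (ball G v r).card
  card_ball_add : ∀ (V : Type) [Fintype V] (G : SimpleGraph V), VertexTransitive G →
    ∀ (u : V) (r s : ℕ), (ball G u (r + s)).card ≤ (ball G u r).card * (ball G u s).card
  disjoint_balls : ∀ (V : Type) [Fintype V] (G : SimpleGraph V) (r β : ℕ),
    (∀ v, (ball G v (2 * r)).card ≤ β) →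
    ∃ Z : Finset V, (Z : Set V).PairwiseDisjoint (fun v => ball G v r) ∧
      Fintype.card V ≤ Z.card * β

/-! ### Cluster sums -/

/-- Module CLS: sum over rooted sets -/
def ClsStmt : Prop :=
  ∀ (V : Type) [Fintype V] (Γ : V → V → Prop) (Δ : ℕ) (x δ : ℝ≥0∞),
    (∀ v, (Finset.univ.filter fun w => w ≠ v ∧ Γ v w).card ≤ Δ) → x * (1 + δ) ^ Δ ≤ δ →
    ∀ R : Finset V,
      ∑ W ∈ Finset.univ.filter (fun W : Finset V => Rooted Γ R W), x ^ W.card ≤
        (1 + δ) ^ R.card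

/-- Module ENUM: sum over unions of pieces -/
def EnumStmt : Prop :=
  ∀ (V : Type) [Fintype V] (G : SimpleGraph V) (D : ℕ), Reg G D → ∀ φ : ℕ → ℝ≥0∞,
    ∑ s ∈ Finset.Icc 1 (D + 1), ((D + 1).choose s : ℝ≥0∞) * φ s ≤
      ENNReal.ofReal (Real.exp (-1)) * dl D →
    ∀ (R : Finset V) (F : Finset V → ℝ≥0∞) (𝒯 : Finset (Finset V)),
      (∀ T ∈ 𝒯, ∃ (W : Finset V) (Gp : V → Finset V),
        Pieces G R T W Gp ∧ F T ≤ ∏ w ∈ W, φ (Gp w).card) →
      ∑ T ∈ 𝒯, F T ≤ (1 + dl D) ^ R.card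

/-! ### The upper potential -/

/-- Module CLOS: the closure -/
def ClosStmt : Prop :=
  ∀ (V : Type) [Fintype V] (G : SimpleGraph V) (D : ℕ), Reg G D →
    ∀ X : V → ℕ, Smooth G X → ∀ (b : ℕ) (A : Finset V),
      ∃ (T W : Finset V) (Gp : V → Finset V), Pieces G A T W Gp ∧
        (∀ w ∈ W, D ≤ 8 * (Gp w).card) ∧ (∀ t ∈ T, b ≤ X t) ∧ Closed G D b X T ∧
        (A.filter fun z => b + 1 ≤ X z) ⊆ BdSet G D T

/-- Module UPR: the rate of landing at height at least `b - 1` in a closed set -/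
def UprStmt : Prop :=
  ∀ (V : Type) [Fintype V] (G : SimpleGraph V) (D : ℕ), Reg G D →
    ∀ X : V → ℕ, Smooth G X → ∀ (b : ℕ) (T S : Finset V), 1 ≤ b → Closed G D b X T →
      T ⊆ S → S ⊆ T ∪ BdSet G D T →
      ∑ u, ex (walk G X u) (fun w => if w ∈ S ∧ b ≤ X w + 1 then 1 else 0) ≤ 6 * S.card

/-- Module UPPH: one phase of the upper potential -/
def UpphStmt : Prop :=
  ∀ (V : Type) [Fintype V] (G : SimpleGraph V) (D : ℕ), Reg G D →
    ∀ (q : PMF V) (Q a : ℝ≥0∞), (∀ u, q u ≤ Q) → 2 ^ 64 ≤ a → a ≠ ⊤ →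
    ∀ m : ℕ, 6 * m * Q * a ≤ 1 →
    ∀ P : PMF (V → ℕ), (∀ X ∈ P.support, Smooth G X) → ∀ b : ℕ, 1 ≤ b →
      (∀ A : Finset V, ex P (fun X => a ^ mup b X A) ≤ (1 + dl D) ^ A.card) →
      ∀ A : Finset V,
        ex (P.bind (chain G q m)) (fun X => a ^ mup (b + 1) X A) ≤ (1 + dl D) ^ A.card

/-- Module UPN: the upper theorem -/
def UpperStmt : Prop :=
  ∀ (V : Type) [Fintype V] (G : SimpleGraph V) (D : ℕ), Reg G D →
    ∀ (q : PMF V) (Q a : ℝ≥0∞), (∀ u, q u ≤ Q) → 2 ^ 64 ≤ a → a ≠ ⊤ →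
    ∀ m k M : ℕ, 6 * m * Q * a ≤ 1 → M ≤ k * m → ∀ (s : ℕ) (w : V),
      pr (chain G q M 0) (fun X => k + 1 + s ≤ X w) ≤
        (2 / a) ^ (∑ i ∈ Finset.range (s + 1), (ball G w i).card)

/-- Module XUP: the upper bound for the maximum load on regular graphs -/
def XupStmt : Prop :=
  ∃ C n₀ : ℕ, ∀ (V : Type) [Fintype V] [Nonempty V] (G : SimpleGraph V) (D : ℕ), Reg G D →
    n₀ ≤ Fintype.card V →
    pr (chain G (unif V) (Fintype.card V) 0) (fun X => ∃ v, C * R₁ G < X v) ≤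
      (Fintype.card V : ℝ≥0∞)⁻¹

/-! ### The lower potential -/

/-- Module LPA: simple properties of `Φ` -/
structure LpaStmt : Prop where
  le16 : ∀ (V : Type) [Fintype V] (G : SimpleGraph V) (D : ℕ) (ε : ℝ) (T : Finset V), 0 ≤ ε →
    Phi G D ε T ≤ 16 * T.card
  union : ∀ (V : Type) [Fintype V] (G : SimpleGraph V) (D : ℕ) (ε : ℝ) (T S : Finset V) (u : V),
    0 ≤ ε → S ⊆ cn G u → Disjoint S T →
    Phi G D ε T + 16 * S.card - 8 * Real.exp 2 * ε * D ≤ Phi G D ε (T ∪ S)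
  ge8 : ∀ (V : Type) [Fintype V] (G : SimpleGraph V) (D : ℕ) (ε : ℝ) (T : Finset V), 0 ≤ ε →
    ε * D ≤ 1 / 8 → 8 * (T.card : ℝ) ≤ Phi G D ε T
  le_of_adm : ∀ (V : Type) [Fintype V] (G : SimpleGraph V) (D : ℕ) (ε : ℝ) (T : Finset V)
    (α : V → ℝ), 0 ≤ ε → Adm G D ε T α → Phi G D ε T ≤ ∑ z ∈ T, α z
  empty : ∀ (V : Type) [Fintype V] (G : SimpleGraph V) (D : ℕ) (ε : ℝ), 0 ≤ ε →
    Phi G D ε ∅ = 0

/-- Module LPB: decreasing `ε` -/
def LpbStmt : Prop :=
  ∀ (V : Type) [Fintype V] (G : SimpleGraph V) (D : ℕ), 1 ≤ D → Reg G D →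
    ∀ ε η : ℝ, 0 < ε → 0 ≤ η → η ≤ 1 / 2 → ∀ T U : Finset V, T ⊆ U →
      Phi G D ((1 - η) * ε) T ≤ Phi G D ε T +
        2 * η * ((32 / 3) * Real.exp 2 * ε * (∑ u ∈ T ∪ Uᶜ, mm G D ε T u) +
          8 * (crowd G D T U).card)

/-- Module LPC: the start -/
def LpcStmt : Prop :=
  ∀ (V : Type) [Fintype V] (G : SimpleGraph V) (D : ℕ), 1 ≤ D → Reg G D → ∀ A : Finset V,
    ∑ T ∈ Finset.univ.filter (fun T : Finset V => Rooted (Near G 2) A T),
      ENNReal.ofReal (Real.exp (Phi G D (1 / 30) T - 49 * T.card)) ≤ (1 + dl3 D) ^ A.card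

/-- Module LOWR: the rate at which a set of vertices of load at most `k` is hit -/
structure LowrStmt : Prop where
  rate_le : ∀ (V : Type) [Fintype V] (G : SimpleGraph V) (k : ℕ) (X : V → ℕ), Smooth G X →
    ∀ T : Finset V, T ⊆ lowSet X k →
      ENNReal.ofReal (rate G k X T) ≤ ∑ u, ex (walk G X u) (fun w =>
        if (w ∈ T ∧ X w = k) ∨ w ∈ Cl G k X (cns G T) then 1 else 0)
  mlow_bump : ∀ (V : Type) [Fintype V] (G : SimpleGraph V) (k : ℕ) (X : V → ℕ) (A : Finset V)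
    (w : V), mlow G k (bump X w) A ≤ mlow G k X A
  mlow_bump_good : ∀ (V : Type) [Fintype V] (G : SimpleGraph V) (k : ℕ) (X : V → ℕ)
    (A : Finset V) (w : V), w ∈ Cl G k X A → mlow G k (bump X w) A + 1 ≤ mlow G k X A
  mlow_mono : ∀ (V : Type) [Fintype V] (G : SimpleGraph V) (k : ℕ) (X : V → ℕ)
    (A B : Finset V), A ⊆ B → mlow G k X A ≤ mlow G k X B

/-- Module DRIFT: the main inequality -/
def DriftStmt : Prop :=
  ∀ (V : Type) [Fintype V] (G : SimpleGraph V) (D : ℕ), 1 ≤ D → Reg G D →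
    ∀ (k : ℕ) (X : V → ℕ) (A : Finset V), Smooth G X → ∀ ε η : ℝ, 0 < ε → ε ≤ 1 / 30 →
      0 ≤ η → 1 / (8 * D : ℝ) ≤ (1 - η) * ε → η * ε * (100000 * Fintype.card V) ≤ 1 →
      ∑ T ∈ fam G k X A, Real.exp (Phi G D ((1 - η) * ε) T) * 2 ^ mlow G k X (cns G T) *
          (1 - rate G k X T / (2 * Fintype.card V)) ≤
        ∑ T ∈ fam G k X A, Real.exp (Phi G D ε T) * 2 ^ mlow G k X (cns G T)

/-- Module LOWPH: one phase of the lower potential -/
def LowphStmt : Prop :=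
  ∀ (V : Type) [Fintype V] [Nonempty V] (G : SimpleGraph V) (D : ℕ), 1 ≤ D → Reg G D →
    ∀ (k : ℕ) (P : PMF (V → ℕ)), (∀ X ∈ P.support, Smooth G X) →
      (∀ A : Finset V, ex P (fun X => 2 ^ mlow G k X A) ≤ (1 + dl3 D) ^ A.card) →
      ∀ A : Finset V,
        ex (P.bind (chain G (unif V) (3500 * Fintype.card V)))
          (fun X => 2 ^ mlow G (k + 1) X A) ≤ (1 + dl3 D) ^ A.card

/-- Module LOWN: the lower theorem -/
def LowerStmt : Prop :=
  ∀ (V : Type) [Fintype V] [Nonempty V] (G : SimpleGraph V) (D : ℕ), 1 ≤ D → Reg G D →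
    ∀ k m : ℕ, 3500 * k * Fintype.card V ≤ m → ∀ v : V,
      pr (chain G (unif V) m 0) (fun X => X v = 0) ≤
        2 * (1 / 2) ^ (∑ i ∈ Finset.range k, (ball G v i).card)

/-- Module TUP: the upper bound for the cover time on regular graphs -/
def TupStmt : Prop :=
  ∃ C n₀ : ℕ, ∀ (V : Type) [Fintype V] [Nonempty V] (G : SimpleGraph V) (D : ℕ), Reg G D →
    n₀ ≤ Fintype.card V → ∀ m : ℕ, C * R₂ G * Fintype.card V ≤ m →
    pr (chain G (unif V) m 0) (fun X => ∃ v, X v = 0) ≤ (Fintype.card V : ℝ≥0∞)⁻¹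

/-! ### Lower bounds -/

/-- the probability that a given set of `s` vertices (out of `n`) is hit by `M` balls -/
def hitP (n : ℕ) : ℕ → ℕ → ℝ
  | 0, s => if s = 0 then 1 else 0
  | M + 1, s => (s / n : ℝ) * hitP n M (s - 1) + (1 - s / n) * hitP n M s

/-- Module IID: births -/
structure IidStmt : Prop where
  chain_eq : ∀ (V : Type) [Fintype V] (G : SimpleGraph V) (q : PMF V) (m : ℕ) (X : V → ℕ),
    chain G q m X = (iid q m).bind fun l => runL G l X
  iid_add : ∀ (V : Type) [Fintype V] (q : PMF V) (l m : ℕ),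
    iid q (l + m) = (iid q l).bind fun a => (iid q m).map fun b => a ++ b
  runL_append : ∀ (V : Type) [Fintype V] (G : SimpleGraph V) (l l' : List V) (X : V → ℕ),
    runL G (l ++ l') X = (runL G l X).bind (runL G l')
  length : ∀ (V : Type) [Fintype V] (q : PMF V) (m : ℕ), ∀ l ∈ (iid q m).support, l.length = m
  hit : ∀ (V : Type) [Fintype V] [Nonempty V] (M : ℕ) (S : Finset V),
    pr (iid (unif V) M) (fun l => ∀ u ∈ S, u ∈ l) =
      ENNReal.ofReal (hitP (Fintype.card V) M S.card)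
  avoid : ∀ (V : Type) [Fintype V] [Nonempty V] (M : ℕ) (S : Finset V),
    pr (iid (unif V) M) (fun l => ∀ u ∈ l, u ∉ S) =
      ENNReal.ofReal ((1 - S.card / Fintype.card V) ^ M)
  avoid_ex : ∀ (V : Type) [Fintype V] [Nonempty V] (M : ℕ) (S : Finset V) (hS : Sᶜ.Nonempty)
    (f : List V → ℝ≥0∞),
    ex (iid (unif V) M) (fun l => if ∀ u ∈ l, u ∉ S then f l else 0) =
      ENNReal.ofReal ((1 - S.card / Fintype.card V) ^ M) *
        ex (iid (PMF.uniformOfFinset Sᶜ hS) M) f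

/-- Module HITP: the numbers `hitP` -/
structure HitpStmt : Prop where
  nonneg : ∀ n M s : ℕ, s ≤ n → 0 ≤ hitP n M s
  le_one : ∀ n M s : ℕ, s ≤ n → hitP n M s ≤ 1
  anti : ∀ n M s : ℕ, s + 1 ≤ n → hitP n M (s + 1) ≤ hitP n M s
  neg_corr : ∀ n M s t : ℕ, s + t ≤ n → hitP n M (s + t) ≤ hitP n M s * hitP n M t
  lower : ∀ n M s L : ℕ, 1 ≤ n → 1 ≤ L → n ≤ 2 * L * M → 2 * s ≤ M → M ≤ n →
    (1 / (4 * Real.exp 2 * L)) ^ s ≤ hitP n M s

/-- Module XLOD: if in phase `i` there is a birth at every vertex of the ball of radius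
`L - 1 - i` around `v`, then the load of `v` is at least `L` at the end -/
def XlodStmt : Prop :=
  ∀ (V : Type) [Fintype V] (G : SimpleGraph V) (v : V) (L : ℕ) (ls : ℕ → List V),
    (∀ i < L, ∀ u ∈ ball G v (L - 1 - i), u ∈ ls i) →
    ∀ X ∈ (runL G ((List.range L).flatMap ls) 0).support, L ≤ X v

/-- Module XLO: the lower bound for the maximum load -/
def XloStmt : Prop :=
  ∃ c : ℝ, 0 < c ∧ ∃ η : ℕ → ℝ, Filter.Tendsto η Filter.atTop (nhds 0) ∧
    ∀ (V : Type) [Fintype V] [Nonempty V] (G : SimpleGraph V), VertexTransitive G →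
      pr (chain G (unif V) (Fintype.card V) 0) (fun X => ∀ v, (X v : ℝ) < c * R₁ G) ≤
        ENNReal.ofReal (η (Fintype.card V))

/-- Module TLOD: if there is no birth in the ball of radius `r` around `v` and `v` is covered,
then some vertex within distance `r + 1` of `v` has load at least `r + 1` -/
def TlodStmt : Prop :=
  ∀ (V : Type) [Fintype V] (G : SimpleGraph V) (v : V) (r : ℕ) (l : List V),
    (∀ u ∈ l, u ∉ ball G v r) → ∀ X ∈ (runL G l 0).support, 1 ≤ X v →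
    ∃ w ∈ ball G v (r + 1), r + 1 ≤ X w

/-- Module TLO: the lower bound for the cover time -/
def TloStmt : Prop :=
  ∃ c : ℝ, 0 < c ∧ ∃ η : ℕ → ℝ, Filter.Tendsto η Filter.atTop (nhds 0) ∧
    ∀ (V : Type) [Fintype V] [Nonempty V] (G : SimpleGraph V), VertexTransitive G →
      ∀ m : ℕ, (m : ℝ) ≤ c * R₂ G * Fintype.card V →
      pr (chain G (unif V) m 0) (fun X => ∀ v, 1 ≤ X v) ≤ ENNReal.ofReal (η (Fintype.card V))

/-! ### The process -/

/-- Module PROC: the process and the laws `chain` -/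
def ProcStmt : Prop :=
  ∀ (V : Type) [Fintype V] [Nonempty V] (G : SimpleGraph V) (Ω : Type) [MeasurableSpace Ω]
    (μ : MeasureTheory.Measure Ω) [MeasureTheory.IsProbabilityMeasure μ] (X : ℕ → Ω → V → ℕ),
    IsLocalSearch G μ X →
    (∀ (m : ℕ) (S : (V → ℕ) → Prop),
      μ {ω | S (X m ω)} = pr (chain G (unif V) m 0) S) ∧
    (∀ᵐ ω ∂μ, ∀ m, X m ω ≤ X (m + 1) ω)

/-- Module EX: the process exists -/
def ExStmt : Prop :=
  ∀ (V : Type) [Fintype V] [Nonempty V] (G : SimpleGraph V),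
    ∃ (Ω : Type) (_ : MeasurableSpace Ω) (μ : MeasureTheory.Measure Ω) (X : ℕ → Ω → V → ℕ),
      MeasureTheory.IsProbabilityMeasure μ ∧ IsLocalSearch G μ X

/-- the answer to the question, with the upper bounds for all regular graphs and the existence of
the process -/
def FinStmt : Prop :=
  ∃ (c C : ℝ) (η : ℕ → ℝ), 0 < c ∧ Filter.Tendsto η Filter.atTop (nhds 0) ∧
    (∀ (V : Type) [Fintype V] [Nonempty V] (G : SimpleGraph V), VertexTransitive G →
      ∀ (Ω : Type) [MeasurableSpace Ω] (μ : MeasureTheory.Measure Ω)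
        [MeasureTheory.IsProbabilityMeasure μ] (X : ℕ → Ω → V → ℕ), IsLocalSearch G μ X →
        μ {ω | ¬ (c * R₁ G ≤ (Xmax X (Fintype.card V) ω : ℝ) ∧
            (Xmax X (Fintype.card V) ω : ℝ) ≤ C * R₁ G ∧ Covers X ω ∧
            c * R₂ G * Fintype.card V ≤ (Tcov X ω : ℝ) ∧
            (Tcov X ω : ℝ) ≤ C * R₂ G * Fintype.card V)} ≤
          ENNReal.ofReal (η (Fintype.card V))) ∧
    (∀ (V : Type) [Fintype V] [Nonempty V] (G : SimpleGraph V) (D : ℕ), Reg G D →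
      ∀ (Ω : Type) [MeasurableSpace Ω] (μ : MeasureTheory.Measure Ω)
        [MeasureTheory.IsProbabilityMeasure μ] (X : ℕ → Ω → V → ℕ), IsLocalSearch G μ X →
        μ {ω | ¬ ((Xmax X (Fintype.card V) ω : ℝ) ≤ C * R₁ G ∧ Covers X ω ∧
            (Tcov X ω : ℝ) ≤ C * R₂ G * Fintype.card V)} ≤
          ENNReal.ofReal (η (Fintype.card V))) ∧
    (∀ (V : Type) [Fintype V] [Nonempty V] (G : SimpleGraph V),
      ∃ (Ω : Type) (_ : MeasurableSpace Ω) (μ : MeasureTheory.Measure Ω) (X : ℕ → Ω → V → ℕ),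
        MeasureTheory.IsProbabilityMeasure μ ∧ IsLocalSearch G μ X)

end

end Helper43.LSA
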