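import Mathlib
import Pool.Agent.Helper43_LSA.Stmts

/-!
# Module DRIFT
-/

namespace Helper43.LSA

open Classical
open scoped ENNReal

set_option linter.unusedSectionVars false

noncomputable section

namespace Drift

variable {V : Type} [Fintype V]

theorem fiber_sum (F F' : Finset (Finset V)) (M : Finset V) (P : Finset V → Prop)
    [DecidablePred P]
    (g w : Finset V → ℝ) (hg : ∀ S, 0 ≤ g S) (hw : ∀ T, 0 ≤ w T)
    (hF : ∀ T ∈ F, T ∪ M ∈ F' ∧ P (M \ T)) :
    ∑ T ∈ F, g (M \ T) * w (T ∪ M) ≤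
      (∑ S ∈ M.powerset.filter P, g S) * ∑ T ∈ F'.filter (fun T => M ⊆ T), w T := by
  rw [Finset.sum_mul_sum, ← Finset.sum_product']
  have hinj : Set.InjOn (fun T : Finset V => (M \ T, T ∪ M)) (F : Set (Finset V)) := by
    intro T _ T' _ h
    simp only [Prod.mk.injEq] at h
    have h1 : T = (T ∪ M) \ (M \ T) := by
      ext v; simp only [Finset.mem_sdiff, Finset.mem_union]; tauto
    have h2 : T' = (T' ∪ M) \ (M \ T') := by
      ext v; simp only [Finset.mem_sdiff, Finset.mem_union]; tauto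
    rw [h1, h2, h.1, h.2]
  calc ∑ T ∈ F, g (M \ T) * w (T ∪ M)
      = ∑ x ∈ F.image (fun T : Finset V => (M \ T, T ∪ M)), g x.1 * w x.2 :=
        (Finset.sum_image (f := fun x : Finset V × Finset V => g x.1 * w x.2) hinj).symm
    _ ≤ ∑ x ∈ (M.powerset.filter P) ×ˢ (F'.filter fun T => M ⊆ T), g x.1 * w x.2 := by
        refine Finset.sum_le_sum_of_subset_of_nonneg ?_ fun x _ _ => mul_nonneg (hg _) (hw _)
        intro x hx
        rw [Finset.mem_image] at hx
        obtain ⟨T, hT, rfl⟩ := hx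
        obtain ⟨h1, h2⟩ := hF T hT
        simp only [Finset.mem_product, Finset.mem_filter, Finset.mem_powerset]
        exact ⟨⟨Finset.sdiff_subset, h2⟩, h1, Finset.subset_union_right⟩

theorem exp_two_lt : Real.exp 2 < 7.3891 := by
  have h := Real.exp_one_lt_d9
  have h0 := Real.exp_pos 1
  have : Real.exp 2 = Real.exp 1 * Real.exp 1 := by rw [← Real.exp_add]; norm_num
  rw [this]
  nlinarith

theorem exp_four_gt : 50 < Real.exp 4 := by
  have h := Real.exp_one_gt_d9
  have : Real.exp 4 = Real.exp 1 ^ 4 := by rw [← Real.exp_nat_mul]; norm_num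
  rw [this]
  calc (50 : ℝ) < 2.7182818283 ^ 4 := by norm_num
    _ ≤ _ := by gcongr

theorem exp_three_half_gt : 4 ≤ Real.exp (3 / 2) := by
  have h := Real.exp_one_gt_d9
  have h3 : Real.exp (3 / 2) ^ 2 = Real.exp 1 ^ 3 := by
    rw [← Real.exp_nat_mul, ← Real.exp_nat_mul]; norm_num
  have h4 : (16 : ℝ) ≤ Real.exp 1 ^ 3 := by
    calc (16 : ℝ) ≤ 2.7182818283 ^ 3 := by norm_num
      _ ≤ _ := by gcongr
  have h5 := Real.exp_pos (3 / 2 : ℝ)
  nlinarith

/-- `∑_{S ⊆ M, c ≤ |S|} e^{-8|S|} ≤ 2^{|M|} e^{-8c}` -/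
theorem powerset_sum (M : Finset V) (P : Finset V → Prop) [DecidablePred P] (c : ℝ)
    (hc : ∀ S, S ⊆ M → P S → c ≤ S.card) :
    ∑ S ∈ M.powerset.filter P, Real.exp (-(8 * (S.card : ℝ))) ≤
      2 ^ M.card * Real.exp (-(8 * c)) := by
  calc ∑ S ∈ M.powerset.filter P, Real.exp (-(8 * (S.card : ℝ)))
      ≤ ∑ S ∈ M.powerset.filter P, Real.exp (-(8 * c)) := by
        refine Finset.sum_le_sum fun S hS => ?_
        rw [Finset.mem_filter, Finset.mem_powerset] at hS
        have := hc S hS.1 hS.2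
        exact Real.exp_le_exp.2 (by linarith)
    _ ≤ ∑ S ∈ M.powerset, Real.exp (-(8 * c)) :=
        Finset.sum_le_sum_of_subset_of_nonneg (Finset.filter_subset _ _)
          fun _ _ _ => (Real.exp_pos _).le
    _ = 2 ^ M.card * Real.exp (-(8 * c)) := by
        rw [Finset.sum_const, Finset.card_powerset, nsmul_eq_mul]; push_cast; ring

/-- the weight of `T` -/
def wt (G : SimpleGraph V) (D : ℕ) (ε : ℝ) (k : ℕ) (X : V → ℕ) (T : Finset V) : ℝ :=
  Real.exp (Phi G D ε T) * 2 ^ mlow G k X (cns G T)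

theorem wt_pos (G : SimpleGraph V) (D : ℕ) (ε : ℝ) (k : ℕ) (X : V → ℕ) (T : Finset V) :
    0 < wt G D ε k X T := by
  unfold wt; positivity

theorem cl_mono {G : SimpleGraph V} {k : ℕ} {X : V → ℕ} {A B : Finset V} (h : A ⊆ B) :
    Cl G k X A ⊆ Cl G k X B := by
  intro w hw
  simp only [Cl, Finset.mem_filter, Finset.mem_univ, true_and] at hw ⊢
  obtain ⟨r, hr, h2⟩ := hw
  exact ⟨r, h hr, h2⟩

theorem mlow_mono {G : SimpleGraph V} {k : ℕ} {X : V → ℕ} {A B : Finset V} (h : A ⊆ B) :
    mlow G k X A ≤ mlow G k X B :=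
  Finset.sum_le_sum_of_subset (cl_mono h)

theorem cns_mono {G : SimpleGraph V} {A B : Finset V} (h : A ⊆ B) : cns G A ⊆ cns G B :=
  Finset.biUnion_subset_biUnion_of_subset_left _ h

theorem wt_union (hA : LpaStmt) {G : SimpleGraph V} {D : ℕ} {ε : ℝ} (hε : 0 ≤ ε) (k : ℕ)
    (X : V → ℕ) (T M : Finset V) (u : V) (hM : M ⊆ cn G u)
    (hS : Real.exp 2 * ε * D ≤ (M \ T).card) :
    wt G D ε k X T ≤ Real.exp (-(8 * ((M \ T).card : ℝ))) * wt G D ε k X (T ∪ M) := by
  have h1 := hA.union V G D ε T (M \ T) u hε (Finset.sdiff_subset.trans hM)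
    Finset.sdiff_disjoint
  rw [Finset.union_sdiff_self_eq_union] at h1
  have h2 : Phi G D ε T ≤ -(8 * ((M \ T).card : ℝ)) + Phi G D ε (T ∪ M) := by linarith
  have h3 : (2 : ℝ) ^ mlow G k X (cns G T) ≤ 2 ^ mlow G k X (cns G (T ∪ M)) :=
    pow_le_pow_right₀ (by norm_num) (mlow_mono (cns_mono Finset.subset_union_left))
  unfold wt
  calc Real.exp (Phi G D ε T) * 2 ^ mlow G k X (cns G T)
      ≤ Real.exp (-(8 * ((M \ T).card : ℝ)) + Phi G D ε (T ∪ M)) *
          2 ^ mlow G k X (cns G (T ∪ M)) :=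
        mul_le_mul (Real.exp_le_exp.2 h2) h3 (by positivity) (by positivity)
    _ = _ := by rw [Real.exp_add]; ring

theorem mem_fam {G : SimpleGraph V} {k : ℕ} {X : V → ℕ} {A T : Finset V} :
    T ∈ fam G k X A ↔ T ⊆ lowSet X k ∧ Rooted (Near G 2) A T := by
  simp [fam]

theorem fam_union {G : SimpleGraph V} {k : ℕ} {X : V → ℕ} {A T M : Finset V}
    (hT : T ∈ fam G k X A) (hM : M ⊆ lowSet X k) {t : V} (ht : t ∈ T)
    (hn : ∀ s ∈ M, G.edist t s ≤ 2) : T ∪ M ∈ fam G k X A := by
  rw [mem_fam] at hT ⊢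
  refine ⟨Finset.union_subset hT.1 hM, ?_⟩
  have key : ∀ w ∈ T, ∃ r ∈ A, r ∈ T ∪ M ∧
      Relation.ReflTransGen (fun a b => Near G 2 a b ∧ b ∈ T ∪ M) r w := by
    intro w hw
    obtain ⟨r, hr, hrT, h⟩ := hT.2 w hw
    refine ⟨r, hr, Finset.mem_union_left _ hrT, ?_⟩
    have hle : (fun a b => Near G 2 a b ∧ b ∈ T) ≤ fun a b => Near G 2 a b ∧ b ∈ T ∪ M :=
      fun a b hab => ⟨hab.1, Finset.mem_union_left _ hab.2⟩
    exact Relation.ReflTransGen.mono hle r w h
  intro w hw
  by_cases hwT : w ∈ T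
  · exact key w hwT
  · have hwM : w ∈ M := by
      rcases Finset.mem_union.1 hw with h | h
      · exact absurd h hwT
      · exact h
    obtain ⟨r, hr, hrT, h⟩ := key t ht
    refine ⟨r, hr, hrT, h.tail ⟨⟨?_, ?_⟩, hw⟩⟩
    · rintro rfl; exact hwT ht
    · exact_mod_cast hn w hwM

/-- the ratio at `u` -/
def rat (G : SimpleGraph V) (k : ℕ) (X : V → ℕ) (T : Finset V) (u : V) : ℝ :=
  ((nbr G u ∩ T).card : ℝ) / ((nbr G u ∩ lowSet X k).card : ℝ)

theorem rat_nonneg (G : SimpleGraph V) (k : ℕ) (X : V → ℕ) (T : Finset V) (u : V) :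
    0 ≤ rat G k X T u := by unfold rat; positivity

theorem rat_le_one {G : SimpleGraph V} {k : ℕ} {X : V → ℕ} {T : Finset V}
    (hT : T ⊆ lowSet X k) (u : V) : rat G k X T u ≤ 1 := by
  unfold rat
  refine div_le_one_of_le₀ ?_ (by positivity)
  exact_mod_cast Finset.card_le_card (Finset.inter_subset_inter_left hT)

theorem rate_eq (G : SimpleGraph V) (k : ℕ) (X : V → ℕ) (T : Finset V) :
    rate G k X T = T.card + ∑ u ∈ (lowSet X k)ᶜ, rat G k X T u := rfl

theorem mm_nonneg {G : SimpleGraph V} {D : ℕ} {ε : ℝ} (hε : 0 ≤ ε) (T : Finset V) (u : V) :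
    0 ≤ mm G D ε T u := by
  unfold mm
  exact le_min (by norm_num) (by positivity)

theorem mm_le_one (G : SimpleGraph V) (D : ℕ) (ε : ℝ) (T : Finset V) (u : V) :
    mm G D ε T u ≤ 1 := min_le_left _ _

/-- charge at a high vertex -/
theorem charge_high (hA : LpaStmt) {G : SimpleGraph V} {D : ℕ} (hD : 1 ≤ D) (k : ℕ)
    (X : V → ℕ) (A : Finset V) {ε : ℝ} (hε : 0 < ε) {u : V} (hu : u ∉ lowSet X k) :
    ∑ T ∈ fam G k X A, wt G D ε k X T * mm G D ε T u ≤
      16 * ∑ T ∈ fam G k X A, wt G D ε k X T * rat G k X T u := by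
  set U := lowSet X k with hU
  set M := nbr G u ∩ U with hM
  have hDpos : (0 : ℝ) < D := by exact_mod_cast hD
  have hεD : 0 < ε * D := mul_pos hε hDpos
  -- the bad sets
  let B : Finset V → Prop := fun T => (nbr G u ∩ T).Nonempty ∧ 15 * (ε * D) < M.card ∧
    2 * (nbr G u ∩ T).card < M.card
  have hmmeq : ∀ T ∈ fam G k X A, mm G D ε T u = min 1 (((nbr G u ∩ T).card : ℝ) / (ε * D)) := by
    intro T hT
    have huT : u ∉ T := fun h => hu ((mem_fam.1 hT).1 h)
    have : cn G u ∩ T = nbr G u ∩ T := by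
      ext v
      simp only [Finset.mem_inter, mem_cn, mem_nbr]
      constructor
      · rintro ⟨h | h, h2⟩
        · rw [h] at h2; exact absurd h2 huT
        · exact ⟨h, h2⟩
      · rintro ⟨h, h2⟩; exact ⟨Or.inr h, h2⟩
    unfold mm
    rw [this]
  have hgood : ∀ T ∈ fam G k X A, ¬ B T → mm G D ε T u ≤ 15 * rat G k X T u := by
    intro T hT hB
    rw [hmmeq T hT]
    have hsub : nbr G u ∩ T ⊆ M := Finset.inter_subset_inter_left (mem_fam.1 hT).1
    by_cases h0 : (nbr G u ∩ T).Nonempty
    · have htpos : (0 : ℝ) < (nbr G u ∩ T).card := by exact_mod_cast h0.card_pos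
      have hMpos : (0 : ℝ) < M.card :=
        lt_of_lt_of_le htpos (by exact_mod_cast Finset.card_le_card hsub)
      by_cases h1 : (M.card : ℝ) ≤ 15 * (ε * D)
      · refine (min_le_right _ _).trans ?_
        unfold rat
        rw [← hU, ← hM, ← mul_div_assoc, div_le_div_iff₀ hεD hMpos]
        nlinarith
      · have h2 : (M.card : ℝ) ≤ 2 * (nbr G u ∩ T).card := by
          by_contra h3
          push Not at h1 h3
          exact hB ⟨h0, h1, by exact_mod_cast h3⟩
        refine (min_le_left _ _).trans ?_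
        unfold rat
        rw [← hU, ← hM, ← mul_div_assoc, le_div_iff₀ hMpos]
        linarith
    · rw [Finset.not_nonempty_iff_eq_empty] at h0
      have hr := rat_nonneg G k X T u
      rw [h0]
      simp only [Finset.card_empty, Nat.cast_zero, zero_div]
      refine (min_le_right _ _).trans ?_
      linarith
  -- the bad part
  have hbad : ∑ T ∈ (fam G k X A).filter B, wt G D ε k X T ≤
      1 * ∑ T ∈ fam G k X A, wt G D ε k X T * rat G k X T u := by
    by_cases hMe : M.card = 0
    · have : (fam G k X A).filter B = ∅ := by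
        rw [Finset.filter_eq_empty_iff]
        intro T hT hB
        have := hB.2.2
        omega
      rw [this, Finset.sum_empty, one_mul]
      exact Finset.sum_nonneg fun T _ => mul_nonneg (wt_pos _ _ _ _ _ _).le (rat_nonneg _ _ _ _ _)
    · have hMpos : 1 ≤ M.card := Nat.one_le_iff_ne_zero.2 hMe
      have hcardS : ∀ T ∈ (fam G k X A).filter B, M.card < 2 * (M \ T).card := by
        intro T hT
        rw [Finset.mem_filter] at hT
        have h1 : (M \ T).card + (nbr G u ∩ T).card = M.card := by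
          have : nbr G u ∩ T = M ∩ T := by
            ext v
            simp only [hM, Finset.mem_inter]
            constructor
            · rintro ⟨h, h2⟩; exact ⟨⟨h, (mem_fam.1 hT.1).1 h2⟩, h2⟩
            · rintro ⟨⟨h, _⟩, h2⟩; exact ⟨h, h2⟩
          rw [this]
          exact Finset.card_sdiff_add_card_inter M T
        have h2 := hT.2.2.2
        omega
      have step1 : ∀ T ∈ (fam G k X A).filter B, wt G D ε k X T ≤
          Real.exp (-(8 * ((M \ T).card : ℝ))) * wt G D ε k X (T ∪ M) := by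
        intro T hT
        have hc := hcardS T hT
        rw [Finset.mem_filter] at hT
        refine wt_union hA hε.le k X T M u
          (Finset.inter_subset_left.trans (nbr_subset_cn G u)) ?_
        have h1 := hT.2.2.1
        have h2 : (M.card : ℝ) < 2 * ((M \ T).card : ℝ) := by exact_mod_cast hc
        have h3 := exp_two_lt
        have h4 : Real.exp 2 * ε * D ≤ 7.3891 * (ε * D) := by
          rw [mul_assoc]; exact mul_le_mul_of_nonneg_right h3.le hεD.le
        nlinarith
      have step2 := fiber_sum ((fam G k X A).filter B) (fam G k X A) M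
        (fun S => M.card < 2 * S.card) (fun S => Real.exp (-(8 * (S.card : ℝ))))
        (wt G D ε k X) (fun S => (Real.exp_pos _).le) (fun T => (wt_pos _ _ _ _ _ _).le) (by
          intro T hT
          refine ⟨?_, hcardS T hT⟩
          rw [Finset.mem_filter] at hT
          obtain ⟨t, ht⟩ := hT.2.1
          rw [Finset.mem_inter, mem_nbr] at ht
          refine fam_union hT.1 Finset.inter_subset_right ht.2 ?_
          intro s hs
          rw [hM, Finset.mem_inter, mem_nbr] at hs
          calc G.edist t s ≤ G.edist t u + G.edist u s := G.edist_triangle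
            _ ≤ 1 + 1 := by
                refine add_le_add ?_ ?_
                · exact (SimpleGraph.edist_eq_one_iff_adj.2 ht.1.symm).le
                · exact (SimpleGraph.edist_eq_one_iff_adj.2 hs.1).le
            _ = 2 := by norm_num)
      have step3 : ∑ S ∈ M.powerset.filter (fun S => M.card < 2 * S.card),
          Real.exp (-(8 * (S.card : ℝ))) ≤ 1 := by
        refine (powerset_sum M _ (M.card / 2) ?_).trans ?_
        · intro S _ hS
          have : (M.card : ℝ) < 2 * S.card := by exact_mod_cast hS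
          linarith
        · have : Real.exp (-(8 * ((M.card : ℝ) / 2))) = (Real.exp 4)⁻¹ ^ M.card := by
            rw [← Real.exp_neg, ← Real.exp_nat_mul]; congr 1; ring
          rw [this, ← mul_pow]
          refine pow_le_one₀ (by positivity) ?_
          have := exp_four_gt
          rw [← div_eq_mul_inv, div_le_one (by positivity)]
          linarith
      calc ∑ T ∈ (fam G k X A).filter B, wt G D ε k X T
          ≤ ∑ T ∈ (fam G k X A).filter B,
              Real.exp (-(8 * ((M \ T).card : ℝ))) * wt G D ε k X (T ∪ M) :=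
            Finset.sum_le_sum step1
        _ ≤ _ := step2
        _ ≤ 1 * ∑ T ∈ (fam G k X A).filter (fun T => M ⊆ T), wt G D ε k X T :=
            mul_le_mul_of_nonneg_right step3
              (Finset.sum_nonneg fun T _ => (wt_pos _ _ _ _ _ _).le)
        _ ≤ 1 * ∑ T ∈ fam G k X A, wt G D ε k X T * rat G k X T u := by
            rw [one_mul, one_mul]
            calc ∑ T ∈ (fam G k X A).filter (fun T => M ⊆ T), wt G D ε k X T
                = ∑ T ∈ (fam G k X A).filter (fun T => M ⊆ T),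
                    wt G D ε k X T * rat G k X T u := by
                  refine Finset.sum_congr rfl fun T hT => ?_
                  rw [Finset.mem_filter] at hT
                  have : nbr G u ∩ T = M := by
                    refine Finset.Subset.antisymm
                      (Finset.inter_subset_inter_left (mem_fam.1 hT.1).1) ?_
                    exact Finset.subset_inter Finset.inter_subset_left hT.2
                  unfold rat
                  rw [← hU, ← hM, this, div_self (by exact_mod_cast hMe), mul_one]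
              _ ≤ _ := Finset.sum_le_sum_of_subset_of_nonneg (Finset.filter_subset _ _)
                  fun T _ _ => mul_nonneg (wt_pos _ _ _ _ _ _).le (rat_nonneg _ _ _ _ _)
  calc ∑ T ∈ fam G k X A, wt G D ε k X T * mm G D ε T u
      ≤ ∑ T ∈ fam G k X A, (15 * (wt G D ε k X T * rat G k X T u) +
          if B T then wt G D ε k X T else 0) := by
        refine Finset.sum_le_sum fun T hT => ?_
        have hw := (wt_pos G D ε k X T).le
        by_cases hB : B T
        · rw [if_pos hB]
          have h1 := mm_le_one G D ε T u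
          have h2 := rat_nonneg G k X T u
          nlinarith [mul_nonneg hw h2]
        · rw [if_neg hB, add_zero]
          have := mul_le_mul_of_nonneg_left (hgood T hT hB) hw
          linarith
    _ = 15 * (∑ T ∈ fam G k X A, wt G D ε k X T * rat G k X T u) +
          ∑ T ∈ (fam G k X A).filter B, wt G D ε k X T := by
        rw [Finset.sum_add_distrib, Finset.mul_sum, Finset.sum_filter]
    _ ≤ _ := by linarith

/-- charge at a crowded vertex -/
theorem charge_crowd (hA : LpaStmt) {G : SimpleGraph V} {D : ℕ} (hG : Reg G D) (k : ℕ)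
    (X : V → ℕ) (A : Finset V) {ε : ℝ} (hε : 0 < ε) (hε2 : ε ≤ 1 / 30) (z : V) :
    ∑ T ∈ (fam G k X A).filter (fun T => z ∈ crowd G D T (lowSet X k)), wt G D ε k X T ≤
      (2 * Real.exp (-2)) ^ D *
        ∑ T ∈ (fam G k X A).filter (fun T => z ∈ T), wt G D ε k X T := by
  set U := lowSet X k with hU
  set M := nbr G z ∩ U with hM
  have hMT : ∀ T : Finset V, nbr G z ∩ (U \ T) = M \ T := by
    intro T; ext v; simp only [hM, Finset.mem_inter, Finset.mem_sdiff]; tauto
  have hcr : ∀ T : Finset V, z ∈ crowd G D T U ↔ z ∈ T ∧ D < 4 * (M \ T).card := by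
    intro T
    simp only [crowd, Finset.mem_filter, hMT]
  have hMD : M.card ≤ D := by
    rw [← hG z]; exact Finset.card_le_card Finset.inter_subset_left
  have step1 : ∀ T ∈ (fam G k X A).filter (fun T => z ∈ crowd G D T U), wt G D ε k X T ≤
      Real.exp (-(8 * ((M \ T).card : ℝ))) * wt G D ε k X (T ∪ M) := by
    intro T hT
    rw [Finset.mem_filter, hcr] at hT
    refine wt_union hA hε.le k X T M z
      (Finset.inter_subset_left.trans (nbr_subset_cn G z)) ?_
    have h2 : (D : ℝ) < 4 * ((M \ T).card : ℝ) := by exact_mod_cast hT.2.2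
    have h3 := exp_two_lt
    have hD0 : (0 : ℝ) ≤ D := by positivity
    have h5 : Real.exp 2 * ε ≤ 7.3891 * (1 / 30) :=
      mul_le_mul h3.le hε2 hε.le (by norm_num)
    have h6 : Real.exp 2 * ε * D ≤ 7.3891 * (1 / 30) * D := mul_le_mul_of_nonneg_right h5 hD0
    nlinarith
  have step2 := fiber_sum ((fam G k X A).filter (fun T => z ∈ crowd G D T U))
    ((fam G k X A).filter (fun T => z ∈ T)) M
    (fun S => D < 4 * S.card) (fun S => Real.exp (-(8 * (S.card : ℝ))))
    (wt G D ε k X) (fun S => (Real.exp_pos _).le) (fun T => (wt_pos _ _ _ _ _ _).le) (by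
      intro T hT
      rw [Finset.mem_filter, hcr] at hT
      refine ⟨?_, hT.2.2⟩
      rw [Finset.mem_filter]
      refine ⟨fam_union hT.1 Finset.inter_subset_right hT.2.1 ?_,
        Finset.mem_union_left _ hT.2.1⟩
      intro s hs
      rw [hM, Finset.mem_inter, mem_nbr] at hs
      calc G.edist z s ≤ 1 := (SimpleGraph.edist_eq_one_iff_adj.2 hs.1).le
        _ ≤ 2 := by norm_num)
  have step3 : ∑ S ∈ M.powerset.filter (fun S => D < 4 * S.card),
      Real.exp (-(8 * (S.card : ℝ))) ≤ (2 * Real.exp (-2)) ^ D := by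
    refine (powerset_sum M _ (D / 4) ?_).trans ?_
    · intro S _ hS
      have : (D : ℝ) < 4 * S.card := by exact_mod_cast hS
      linarith
    · have : Real.exp (-(8 * ((D : ℝ) / 4))) = Real.exp (-2) ^ D := by
        rw [← Real.exp_nat_mul]; congr 1; ring
      rw [this, mul_pow]
      exact mul_le_mul_of_nonneg_right (pow_le_pow_right₀ (by norm_num) hMD) (by positivity)
  calc _ ≤ ∑ T ∈ (fam G k X A).filter (fun T => z ∈ crowd G D T U),
          Real.exp (-(8 * ((M \ T).card : ℝ))) * wt G D ε k X (T ∪ M) :=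
        Finset.sum_le_sum step1
    _ ≤ _ := step2
    _ ≤ (2 * Real.exp (-2)) ^ D * ∑ T ∈ ((fam G k X A).filter (fun T => z ∈ T)).filter
          (fun T => M ⊆ T), wt G D ε k X T :=
        mul_le_mul_of_nonneg_right step3
          (Finset.sum_nonneg fun T _ => (wt_pos _ _ _ _ _ _).le)
    _ ≤ _ := by
        refine mul_le_mul_of_nonneg_left ?_ (by positivity)
        exact Finset.sum_le_sum_of_subset_of_nonneg (Finset.filter_subset _ _)
          fun T _ _ => (wt_pos _ _ _ _ _ _).le

theorem exp_bound {x y c : ℝ} (hx0 : 0 ≤ x) (hx : x ≤ 1 / 200) (hy : 0 ≤ y) (hc0 : 0 ≤ c)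
    (hc1 : c ≤ 1) : Real.exp (x + y) * (1 - c) ≤ 1 + 1.02 * x + 1.02 * (y * Real.exp y) - c := by
  have h1 : Real.exp x ≤ 1 + 1.01 * x := by
    have := Real.exp_bound_div_one_sub_of_interval hx0 (by linarith : x < 1)
    refine this.trans ?_
    rw [div_le_iff₀ (by linarith)]
    nlinarith
  have h2 : Real.exp y ≤ 1 + y * Real.exp y := by
    have h3 := Real.add_one_le_exp (-y)
    have h4 := Real.exp_pos y
    have h5 : Real.exp y * Real.exp (-y) = 1 := by rw [← Real.exp_add]; simp
    nlinarith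
  have h3 : Real.exp (x + y) ≤ 1 + 1.02 * x + 1.02 * (y * Real.exp y) := by
    rw [Real.exp_add]
    have h4 := Real.exp_pos x
    have h5 : 0 ≤ y * Real.exp y := mul_nonneg hy (Real.exp_pos y).le
    calc Real.exp x * Real.exp y ≤ (1 + 1.01 * x) * (1 + y * Real.exp y) :=
          mul_le_mul h1 h2 (Real.exp_pos y).le (by linarith)
      _ ≤ _ := by nlinarith
  have h4 : 1 ≤ Real.exp (x + y) := Real.one_le_exp (by linarith)
  nlinarith

/-- the main inequality -/
theorem main (hA : LpaStmt) (hB : LpbStmt) {G : SimpleGraph V} {D : ℕ} (hD : 1 ≤ D)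
    (hG : Reg G D) (k : ℕ) (X : V → ℕ) (A : Finset V) {ε η : ℝ} (hε : 0 < ε)
    (hε2 : ε ≤ 1 / 30) (hη : 0 ≤ η) (h8 : 1 / (8 * D : ℝ) ≤ (1 - η) * ε)
    (hN : η * ε * (100000 * Fintype.card V) ≤ 1) (hV : Nonempty V) :
    ∑ T ∈ fam G k X A, Real.exp (Phi G D ((1 - η) * ε) T) * 2 ^ mlow G k X (cns G T) *
        (1 - rate G k X T / (2 * Fintype.card V)) ≤
      ∑ T ∈ fam G k X A, Real.exp (Phi G D ε T) * 2 ^ mlow G k X (cns G T) := by
  set U := lowSet X k with hU
  set n : ℝ := (Fintype.card V : ℝ) with hn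
  have hDR : (1 : ℝ) ≤ D := by exact_mod_cast hD
  obtain ⟨v₀⟩ := hV
  have hDn : (D : ℝ) + 1 ≤ n := by
    have h1 := card_cn hG v₀
    have h2 : (cn G v₀).card ≤ Fintype.card V := Finset.card_le_univ _
    rw [h1] at h2
    rw [hn]
    exact_mod_cast h2
  have hn0 : 0 < n := by linarith
  -- bound for η
  have hηb : η * (100000 * n) ≤ 8 * D := by
    have h1 : 1 / (8 * D : ℝ) ≤ ε := by nlinarith
    have h2 : η * (1 / (8 * D : ℝ)) * (100000 * n) ≤ 1 := by
      refine le_trans ?_ hN
      have : η * (1 / (8 * D : ℝ)) ≤ η * ε := mul_le_mul_of_nonneg_left h1 hη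
      exact mul_le_mul_of_nonneg_right this (by positivity)
    have h3 : η * (1 / (8 * D : ℝ)) * (100000 * n) = η * (100000 * n) / (8 * D) := by ring
    rw [h3, div_le_one (by positivity)] at h2
    exact h2
  have hη2 : η ≤ 1 / 2 := by
    by_contra h
    push Not at h
    have : η * (100000 * n) ≤ 8 * n := by linarith
    nlinarith
  -- notation
  set w : Finset V → ℝ := wt G D ε k X with hw
  have hwpos : ∀ T, 0 < w T := wt_pos G D ε k X
  set ca : Finset V → ℝ := fun T => ((crowd G D T U).card : ℝ) with hca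
  have hcan : ∀ T, ca T ≤ n := by
    intro T
    have h1 : (crowd G D T U).card ≤ Fintype.card V := Finset.card_le_univ _
    show ((crowd G D T U).card : ℝ) ≤ n
    rw [hn]
    exact_mod_cast h1
  have hca0 : ∀ T, 0 ≤ ca T := fun T => by rw [hca]; positivity
  -- y
  have hy : ∀ T, Real.exp (16 * η * ca T) ≤ Real.exp (1 / 2) ^ D := by
    intro T
    rw [← Real.exp_nat_mul]
    refine Real.exp_le_exp.2 ?_
    have h1 : 16 * η * ca T ≤ 16 * η * n := mul_le_mul_of_nonneg_left (hcan T) (by linarith)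
    have h2 : η * n ≤ 8 * D / 100000 := by
      rw [le_div_iff₀ (by norm_num)]; linarith
    nlinarith
  -- one term
  have hterm : ∀ T ∈ fam G k X A,
      Real.exp (Phi G D ((1 - η) * ε) T) * 2 ^ mlow G k X (cns G T) *
        (1 - rate G k X T / (2 * n)) ≤
      w T + w T * ((1.02 * (0.00158 / n)) * (T.card + ∑ u ∈ Uᶜ, mm G D ε T u)) +
        w T * (1.02 * (16 * η * ca T) * Real.exp (1 / 2) ^ D) -
        w T * ((T.card + ∑ u ∈ Uᶜ, rat G k X T u) / (2 * n)) := by
    intro T hT
    have hTU : T ⊆ U := (mem_fam.1 hT).1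
    have hlpb := hB V G D hD hG ε η hε hη hη2 T U hTU
    have hmm0 : ∀ u, 0 ≤ mm G D ε T u := mm_nonneg hε.le T
    have hmmU : ∑ u ∈ T ∪ Uᶜ, mm G D ε T u ≤ T.card + ∑ u ∈ Uᶜ, mm G D ε T u := by
      have hdis : Disjoint T Uᶜ := by
        rw [Finset.disjoint_left]
        intro v hv hv2
        rw [Finset.mem_compl] at hv2
        exact hv2 (hTU hv)
      rw [Finset.sum_union hdis]
      have : ∑ u ∈ T, mm G D ε T u ≤ T.card := by
        calc ∑ u ∈ T, mm G D ε T u ≤ ∑ u ∈ T, (1 : ℝ) :=
              Finset.sum_le_sum fun u _ => mm_le_one G D ε T u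
          _ = T.card := by simp
      linarith
    have hmmn : ∑ u ∈ T ∪ Uᶜ, mm G D ε T u ≤ n := by
      calc ∑ u ∈ T ∪ Uᶜ, mm G D ε T u ≤ ∑ u ∈ T ∪ Uᶜ, (1 : ℝ) :=
            Finset.sum_le_sum fun u _ => mm_le_one G D ε T u
        _ = ((T ∪ Uᶜ).card : ℝ) := by simp
        _ ≤ n := by rw [hn]; exact_mod_cast Finset.card_le_univ _
    have hmmp : 0 ≤ ∑ u ∈ T ∪ Uᶜ, mm G D ε T u := Finset.sum_nonneg fun u _ => hmm0 u
    set σ := ∑ u ∈ T ∪ Uᶜ, mm G D ε T u with hσ
    -- x
    have hηε : η * ε ≤ 1 / (100000 * n) := by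
      rw [le_div_iff₀ (by positivity)]; exact hN
    have hcoef : 2 * η * ((32 / 3) * Real.exp 2 * ε) ≤ 0.00158 / n := by
      have h1 : 2 * η * ((32 / 3) * Real.exp 2 * ε) = (64 / 3) * Real.exp 2 * (η * ε) := by ring
      rw [h1]
      have h2 := exp_two_lt
      have h3 : 0 ≤ η * ε := by positivity
      calc (64 / 3) * Real.exp 2 * (η * ε) ≤ (64 / 3) * 7.3891 * (1 / (100000 * n)) := by
            refine mul_le_mul ?_ hηε h3 (by norm_num)
            nlinarith
        _ ≤ 0.00158 / n := by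
            rw [div_eq_mul_inv (0.00158 : ℝ) n, one_div, mul_inv]
            have : 0 < n⁻¹ := by positivity
            nlinarith
    have hcoef0 : 0 ≤ 2 * η * ((32 / 3) * Real.exp 2 * ε) := by positivity
    set x := 2 * η * ((32 / 3) * Real.exp 2 * ε) * σ with hx
    have hx0 : 0 ≤ x := by positivity
    have hx1 : x ≤ 0.00158 / n * σ := mul_le_mul_of_nonneg_right hcoef hmmp
    have hx2 : x ≤ 1 / 200 := by
      have h1 : 0.00158 / n * σ ≤ 0.00158 / n * n :=
        mul_le_mul_of_nonneg_left hmmn (by positivity)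
      have h2 : 0.00158 / n * n = 0.00158 := by field_simp
      linarith
    set y := 16 * η * ca T with hyd
    have hy0 : 0 ≤ y := mul_nonneg (by linarith) (hca0 T)
    have hPhi : Phi G D ((1 - η) * ε) T ≤ Phi G D ε T + (x + y) := by
      refine hlpb.trans (le_of_eq ?_)
      rw [hx, hyd, hca]
      ring
    -- c
    set c := rate G k X T / (2 * n) with hc
    have hratesum : ∑ u ∈ Uᶜ, rat G k X T u ≤ (Uᶜ.card : ℝ) := by
      calc ∑ u ∈ Uᶜ, rat G k X T u ≤ ∑ u ∈ Uᶜ, (1 : ℝ) :=
            Finset.sum_le_sum fun u _ => rat_le_one hTU u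
        _ = _ := by simp
    have hratesum0 : 0 ≤ ∑ u ∈ Uᶜ, rat G k X T u :=
      Finset.sum_nonneg fun u _ => rat_nonneg G k X T u
    have hTcard : (T.card : ℝ) ≤ U.card := by exact_mod_cast Finset.card_le_card hTU
    have hUn : (U.card : ℝ) + (Uᶜ.card : ℝ) = n := by
      rw [hn]; exact_mod_cast Finset.card_add_card_compl U
    have hrate : rate G k X T = T.card + ∑ u ∈ Uᶜ, rat G k X T u := rate_eq G k X T
    have hc0 : 0 ≤ c := by
      rw [hc, hrate]; positivity
    have hc1 : c ≤ 1 := by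
      rw [hc, div_le_one (by positivity), hrate]; linarith
    have hb := exp_bound hx0 hx2 hy0 hc0 hc1
    have hpow : (0 : ℝ) < 2 ^ mlow G k X (cns G T) := by positivity
    have h1 : Real.exp (Phi G D ((1 - η) * ε) T) ≤ Real.exp (Phi G D ε T) * Real.exp (x + y) := by
      rw [← Real.exp_add]; exact Real.exp_le_exp.2 hPhi
    have h1c : 0 ≤ 1 - c := by linarith
    calc Real.exp (Phi G D ((1 - η) * ε) T) * 2 ^ mlow G k X (cns G T) * (1 - c)
        ≤ Real.exp (Phi G D ε T) * Real.exp (x + y) * 2 ^ mlow G k X (cns G T) * (1 - c) :=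
          mul_le_mul_of_nonneg_right (mul_le_mul_of_nonneg_right h1 hpow.le) h1c
      _ = w T * (Real.exp (x + y) * (1 - c)) := by rw [hw]; unfold wt; ring
      _ ≤ w T * (1 + 1.02 * x + 1.02 * (y * Real.exp y) - c) :=
          mul_le_mul_of_nonneg_left hb (hwpos T).le
      _ ≤ _ := by
          have h2 : x ≤ 0.00158 / n * (T.card + ∑ u ∈ Uᶜ, mm G D ε T u) :=
            hx1.trans (mul_le_mul_of_nonneg_left hmmU (by positivity))
          have h3 : y * Real.exp y ≤ y * Real.exp (1 / 2) ^ D :=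
            mul_le_mul_of_nonneg_left (hy T) hy0
          have h4 := mul_le_mul_of_nonneg_left h2 (hwpos T).le
          have h5 := mul_le_mul_of_nonneg_left h3 (hwpos T).le
          rw [hc, hrate]
          nlinarith
  -- sum
  have hS1 := Finset.sum_le_sum hterm
  -- high charges
  have hhigh : ∑ T ∈ fam G k X A, w T * ∑ u ∈ Uᶜ, mm G D ε T u ≤
      16 * ∑ T ∈ fam G k X A, w T * ∑ u ∈ Uᶜ, rat G k X T u := by
    simp_rw [Finset.mul_sum]
    rw [Finset.sum_comm, Finset.sum_comm (s := fam G k X A) (t := Uᶜ) (f := fun T u => _ * _)]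
    refine Finset.sum_le_sum fun u hu => ?_
    rw [Finset.mem_compl] at hu
    have := charge_high (G := G) hA hD k X A hε hu
    rw [Finset.mul_sum] at this
    exact this
  -- crowded charges
  have hcrowd : ∑ T ∈ fam G k X A, w T * ca T ≤
      (2 * Real.exp (-2)) ^ D * ∑ T ∈ fam G k X A, w T * T.card := by
    have e1 : ∑ T ∈ fam G k X A, w T * ca T =
        ∑ z, ∑ T ∈ (fam G k X A).filter (fun T => z ∈ crowd G D T U), w T := by
      simp_rw [Finset.sum_filter]
      rw [Finset.sum_comm]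
      refine Finset.sum_congr rfl fun T _ => ?_
      rw [← Finset.sum_filter, Finset.sum_const, nsmul_eq_mul, mul_comm]
      congr 2
      rw [hca]
      simp
    have e2 : ∑ T ∈ fam G k X A, w T * (T.card : ℝ) =
        ∑ z, ∑ T ∈ (fam G k X A).filter (fun T => z ∈ T), w T := by
      simp_rw [Finset.sum_filter]
      rw [Finset.sum_comm]
      refine Finset.sum_congr rfl fun T _ => ?_
      rw [← Finset.sum_filter, Finset.sum_const, nsmul_eq_mul, mul_comm]
      congr 2
      simp
    rw [e1, e2, Finset.mul_sum]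
    exact Finset.sum_le_sum fun z _ => charge_crowd hA hG k X A hε hε2 z
  have hnum : 1.02 * (16 * η) * Real.exp (1 / 2) ^ D * (2 * Real.exp (-2)) ^ D ≤
      0.0014 / n := by
    have h1 : Real.exp (1 / 2) ^ D * (2 * Real.exp (-2)) ^ D = (2 * Real.exp (-(3 / 2))) ^ D := by
      rw [← mul_pow]
      congr 1
      have : Real.exp (-(3 / 2)) = Real.exp (1 / 2) * Real.exp (-2) := by
        rw [← Real.exp_add]; norm_num
      rw [this]; ring
    have h2 : 2 * Real.exp (-(3 / 2)) ≤ 1 / 2 := by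
      rw [Real.exp_neg]
      have := exp_three_half_gt
      rw [← div_eq_mul_inv, div_le_iff₀ (by positivity)]
      linarith
    have h3 : (2 * Real.exp (-(3 / 2))) ^ D ≤ (1 / 2) ^ D :=
      pow_le_pow_left₀ (by positivity) h2 D
    have h4 : (D : ℝ) * (1 / 2) ^ D ≤ 1 := by
      have h5 : (D : ℝ) ≤ 2 ^ D := by exact_mod_cast (Nat.lt_two_pow_self (n := D)).le
      rw [one_div, inv_pow, ← div_eq_mul_inv, div_le_one (by positivity)]
      exact h5
    rw [mul_assoc, h1, le_div_iff₀ hn0]
    have h5 : η * n ≤ 8 * D / 100000 := by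
      rw [le_div_iff₀ (by norm_num)]; linarith
    calc 1.02 * (16 * η) * (2 * Real.exp (-(3 / 2))) ^ D * n
        = 16.32 * (η * n) * (2 * Real.exp (-(3 / 2))) ^ D := by ring
      _ ≤ 16.32 * (8 * D / 100000) * (1 / 2) ^ D :=
          mul_le_mul (mul_le_mul_of_nonneg_left h5 (by norm_num)) h3 (by positivity)
            (by positivity)
      _ = 0.0013056 * ((D : ℝ) * (1 / 2) ^ D) := by ring
      _ ≤ 0.0014 := by linarith
  -- conclusion
  set SW := ∑ T ∈ fam G k X A, w T with hSW
  set ST := ∑ T ∈ fam G k X A, w T * T.card with hST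
  set SR := ∑ T ∈ fam G k X A, w T * ∑ u ∈ Uᶜ, rat G k X T u with hSR
  set SM := ∑ T ∈ fam G k X A, w T * ∑ u ∈ Uᶜ, mm G D ε T u with hSM
  set SC := ∑ T ∈ fam G k X A, w T * ca T with hSC
  have hST0 : 0 ≤ ST := Finset.sum_nonneg fun T _ => mul_nonneg (hwpos T).le (by positivity)
  have hSR0 : 0 ≤ SR := Finset.sum_nonneg fun T _ => mul_nonneg (hwpos T).le
    (Finset.sum_nonneg fun u _ => rat_nonneg G k X T u)
  have hexpand : ∑ T ∈ fam G k X A, (w T + w T * ((1.02 * (0.00158 / n)) *
        (T.card + ∑ u ∈ Uᶜ, mm G D ε T u)) +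
        w T * (1.02 * (16 * η * ca T) * Real.exp (1 / 2) ^ D) -
        w T * ((T.card + ∑ u ∈ Uᶜ, rat G k X T u) / (2 * n))) =
      SW + (1.02 * (0.00158 / n)) * (ST + SM) + 1.02 * (16 * η) * Real.exp (1 / 2) ^ D * SC -
        (ST + SR) / (2 * n) := by
    rw [hSW, hST, hSR, hSM, hSC]
    rw [← Finset.sum_add_distrib, ← Finset.sum_add_distrib, Finset.mul_sum, Finset.mul_sum,
      Finset.sum_div, ← Finset.sum_add_distrib, ← Finset.sum_add_distrib,
      ← Finset.sum_sub_distrib]
    refine Finset.sum_congr rfl fun T _ => ?_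
    ring
  rw [hexpand] at hS1
  refine hS1.trans ?_
  have hfin : (1.02 * (0.00158 / n)) * (ST + SM) +
      1.02 * (16 * η) * Real.exp (1 / 2) ^ D * SC - (ST + SR) / (2 * n) ≤ 0 := by
    have hb0 : 0 ≤ 1.02 * (16 * η) * Real.exp (1 / 2) ^ D := by positivity
    have h1 : 1.02 * (16 * η) * Real.exp (1 / 2) ^ D * SC ≤ 0.0014 / n * ST := by
      refine (mul_le_mul_of_nonneg_left hcrowd hb0).trans ?_
      rw [← mul_assoc]
      exact mul_le_mul_of_nonneg_right hnum hST0
    have h2 : (1.02 * (0.00158 / n)) * (ST + SM) ≤ (1.02 * (0.00158 / n)) * (ST + 16 * SR) :=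
      mul_le_mul_of_nonneg_left (by linarith) (by positivity)
    have h3 : (1.02 * (0.00158 / n)) * (ST + 16 * SR) + 0.0014 / n * ST - (ST + SR) / (2 * n) =
        -((0.4969884 * ST + 0.4742144 * SR) / n) := by
      field_simp
      ring
    have h4 : 0 ≤ (0.4969884 * ST + 0.4742144 * SR) / n := by positivity
    linarith
  have hgoal : ∑ T ∈ fam G k X A, Real.exp (Phi G D ε T) * 2 ^ mlow G k X (cns G T) = SW := rfl
  rw [hgoal]
  linarith

end Drift

/-- Module DRIFT -/
theorem drift (hA : LpaStmt) (hB : LpbStmt) : DriftStmt := by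
  intro V _ G D hD hG k X A _ ε η hε hε2 hη h8 hN
  by_cases hV : Nonempty V
  · exact Drift.main hA hB hD hG k X A hε hε2 hη h8 hN hV
  · rw [not_nonempty_iff] at hV
    have hDR : (1 : ℝ) ≤ D := by exact_mod_cast hD
    refine Finset.sum_le_sum fun T _ => ?_
    have hT : T = ∅ := Finset.eq_empty_of_isEmpty T
    subst hT
    have h0 : 0 ≤ (1 - η) * ε := le_trans (by positivity) h8
    rw [hA.empty V G D _ h0, hA.empty V G D _ hε.le]
    simp [rate]

end

end Helper43.LSA
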