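import Mathlib
import Pool.Agent.Helper43_LSA.Stmts

/-!
# Module FIN
-/

namespace Helper43.LSA

open Classical MeasureTheory
open scoped ENNReal

set_option linter.unusedSectionVars false

noncomputable section

namespace Fin_

variable {V : Type} [Fintype V] {Ω : Type}

theorem xmax_le {X : ℕ → Ω → V → ℕ} {m : ℕ} {ω : Ω} {K : ℕ} (h : ∀ v, X m ω v ≤ K) :
    Xmax X m ω ≤ K := Finset.sup_le fun v _ => h v

theorem le_xmax {X : ℕ → Ω → V → ℕ} {m : ℕ} {ω : Ω} (v : V) : X m ω v ≤ Xmax X m ω :=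
  Finset.le_sup (f := X m ω) (Finset.mem_univ v)

theorem mono_all {X : ℕ → Ω → V → ℕ} {ω : Ω} (h : ∀ m, X m ω ≤ X (m + 1) ω) {a b : ℕ}
    (hab : a ≤ b) : X a ω ≤ X b ω :=
  monotone_nat_of_le_succ (f := fun m => X m ω) h hab

theorem lt_tcov {X : ℕ → Ω → V → ℕ} {ω : Ω} (h : ∀ m, X m ω ≤ X (m + 1) ω)
    (hc : Covers X ω) {m : ℕ} (hm : ¬ ∀ v, 1 ≤ X m ω v) : m < Tcov X ω := by
  by_contra hlt
  push Not at hlt
  have hmem : ∀ v, 1 ≤ X (Tcov X ω) ω v := Nat.sInf_mem (s := {m | ∀ v, 1 ≤ X m ω v}) hc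
  exact hm fun v => (hmem v).trans (mono_all h hlt v)

theorem tcov_le {X : ℕ → Ω → V → ℕ} {ω : Ω} {m : ℕ} (hm : ∀ v, 1 ≤ X m ω v) :
    Tcov X ω ≤ m := Nat.sInf_le (s := {m | ∀ v, 1 ≤ X m ω v}) hm

end Fin_

/-- Module FIN -/
theorem fin (hXup : XupStmt) (hTup : TupStmt) (hXlo : XloStmt) (hTlo : TloStmt)
    (hP : ProcStmt) (hE : ExStmt) (hGeo : GeoStmt) : FinStmt := by
  obtain ⟨C1, n1, h1⟩ := hXup
  obtain ⟨C2, n2, h2⟩ := hTup
  obtain ⟨c3, hc3, η3, hη3, h3⟩ := hXlo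
  obtain ⟨c4, hc4, η4, hη4, h4⟩ := hTlo
  set N := max n1 n2 with hN
  refine ⟨min c3 c4, max C1 C2, fun n => (if n < N then 1 else 0) + 2 * (n : ℝ)⁻¹ + |η3 n| + |η4 n|,
    lt_min hc3 hc4, ?_, ?_, ?_, ?_⟩
  · have t1 : Filter.Tendsto (fun n : ℕ => if n < N then (1 : ℝ) else 0) Filter.atTop (nhds 0) := by
      refine tendsto_const_nhds.congr' ?_
      filter_upwards [Filter.eventually_ge_atTop N] with n hn
      rw [if_neg (not_lt.2 hn)]
    have t2 : Filter.Tendsto (fun n : ℕ => 2 * (n : ℝ)⁻¹) Filter.atTop (nhds 0) := by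
      simpa using (tendsto_natCast_atTop_atTop (R := ℝ)).inv_tendsto_atTop.const_mul 2
    have t3 : Filter.Tendsto (fun n : ℕ => |η3 n|) Filter.atTop (nhds 0) := by
      simpa using hη3.abs
    have t4 : Filter.Tendsto (fun n : ℕ => |η4 n|) Filter.atTop (nhds 0) := by
      simpa using hη4.abs
    simpa using ((t1.add t2).add t3).add t4
  · intro V _ _ G hG Ω _ μ _ X hX
    obtain ⟨D, hD⟩ := hGeo.reg_of_trans V G hG
    obtain ⟨hlaw, hmon⟩ := hP V G Ω μ X hX
    set n := Fintype.card V with hn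
    have hnonneg : 0 ≤ 2 * (n : ℝ)⁻¹ := by positivity
    beta_reduce
    by_cases hnN : n < N
    · refine prob_le_one.trans ?_
      rw [if_pos hnN]
      rw [← ENNReal.ofReal_one]
      refine ENNReal.ofReal_le_ofReal ?_
      have := abs_nonneg (η3 n)
      have := abs_nonneg (η4 n)
      linarith
    rw [if_neg hnN, zero_add]
    push Not at hnN
    have hn1 : n1 ≤ n := (le_max_left _ _).trans hnN
    have hn2 : n2 ≤ n := (le_max_right _ _).trans hnN
    set m := C2 * R₂ G * n with hm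
    set m' := ⌊c4 * R₂ G * n⌋₊ with hm'
    have b1 := h1 V G D hD hn1
    have b2 := h2 V G D hD hn2 m le_rfl
    have b3 := h3 V G hG
    have b4 := h4 V G hG m' (Nat.floor_le (by positivity))
    rw [← hlaw] at b1 b2 b3 b4
    have hsub : {ω | ¬ (min c3 c4 * R₁ G ≤ (Xmax X n ω : ℝ) ∧
            (Xmax X n ω : ℝ) ≤ max (C1 : ℝ) C2 * R₁ G ∧ Covers X ω ∧
            min c3 c4 * R₂ G * n ≤ (Tcov X ω : ℝ) ∧
            (Tcov X ω : ℝ) ≤ max (C1 : ℝ) C2 * R₂ G * n)} ⊆
        (({ω | ∃ v, C1 * R₁ G < X n ω v} ∪ {ω | ∃ v, X m ω v = 0}) ∪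
          {ω | ∀ v, (X n ω v : ℝ) < c3 * R₁ G}) ∪ {ω | ∀ v, 1 ≤ X m' ω v} ∪
          {ω | ¬ ∀ m, X m ω ≤ X (m + 1) ω} := by
      intro ω hω
      by_contra hnot
      simp only [Set.mem_union, Set.mem_setOf_eq, not_or, not_exists, not_lt] at hnot
      obtain ⟨⟨⟨⟨a1, a2⟩, a3⟩, a4⟩, a5⟩ := hnot
      rw [not_not] at a5
      apply hω
      have hcov : ∀ v, 1 ≤ X m ω v := fun v => Nat.one_le_iff_ne_zero.2 (a2 v)
      have hC : Covers X ω := ⟨m, hcov⟩
      refine ⟨?_, ?_, hC, ?_, ?_⟩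
      · push Not at a3
        obtain ⟨v, hv⟩ := a3
        have : (X n ω v : ℝ) ≤ Xmax X n ω := by exact_mod_cast Fin_.le_xmax (X := X) v
        refine le_trans ?_ (hv.trans this)
        exact mul_le_mul_of_nonneg_right (min_le_left _ _) (by positivity)
      · have : (Xmax X n ω : ℝ) ≤ ((C1 * R₁ G : ℕ) : ℝ) := by
          exact_mod_cast Fin_.xmax_le a1
        refine this.trans ?_
        push_cast
        exact mul_le_mul_of_nonneg_right (le_max_left _ _) (by positivity)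
      · have h5 := Fin_.lt_tcov a5 hC a4
        have h6 : c4 * R₂ G * n < m' + 1 := Nat.lt_floor_add_one _
        have h7 : (m' : ℝ) + 1 ≤ Tcov X ω := by exact_mod_cast h5
        have h8 : min c3 c4 * R₂ G * n ≤ c4 * R₂ G * n := by
          gcongr
          exact min_le_right _ _
        linarith
      · have h5 : (Tcov X ω : ℝ) ≤ (m : ℝ) := by exact_mod_cast Fin_.tcov_le hcov
        refine h5.trans ?_
        rw [hm]
        push_cast
        gcongr
        exact le_max_right _ _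
    have hz : μ {ω | ¬ ∀ m, X m ω ≤ X (m + 1) ω} = 0 := hmon
    calc μ {ω | ¬ (min c3 c4 * R₁ G ≤ (Xmax X n ω : ℝ) ∧
            (Xmax X n ω : ℝ) ≤ max (C1 : ℝ) C2 * R₁ G ∧ Covers X ω ∧
            min c3 c4 * R₂ G * n ≤ (Tcov X ω : ℝ) ∧
            (Tcov X ω : ℝ) ≤ max (C1 : ℝ) C2 * R₂ G * n)}
        ≤ _ := measure_mono hsub
      _ ≤ (((μ {ω | ∃ v, C1 * R₁ G < X n ω v} + μ {ω | ∃ v, X m ω v = 0}) +
          μ {ω | ∀ v, (X n ω v : ℝ) < c3 * R₁ G}) + μ {ω | ∀ v, 1 ≤ X m' ω v}) +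
          μ {ω | ¬ ∀ m, X m ω ≤ X (m + 1) ω} := by
          refine (measure_union_le _ _).trans (add_le_add_left ?_ _)
          refine (measure_union_le _ _).trans (add_le_add_left ?_ _)
          refine (measure_union_le _ _).trans (add_le_add_left ?_ _)
          exact measure_union_le _ _
      _ ≤ (((n : ℝ≥0∞)⁻¹ + (n : ℝ≥0∞)⁻¹) + ENNReal.ofReal (η3 n)) +
          ENNReal.ofReal (η4 n) + 0 := by
          rw [hz]
          gcongr
      _ ≤ ENNReal.ofReal (2 * (n : ℝ)⁻¹ + |η3 n| + |η4 n|) := by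
          have hnpos : 0 < (n : ℝ) := by
            have : 0 < n := Fintype.card_pos
            exact_mod_cast this
          rw [add_zero, ENNReal.ofReal_add (by positivity) (abs_nonneg _),
            ENNReal.ofReal_add (by positivity) (abs_nonneg _)]
          have e1 : (n : ℝ≥0∞)⁻¹ = ENNReal.ofReal ((n : ℝ)⁻¹) := by
            rw [ENNReal.ofReal_inv_of_pos hnpos, ENNReal.ofReal_natCast]
          rw [e1, ← ENNReal.ofReal_add (by positivity) (by positivity), ← two_mul]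
          gcongr
          · exact le_abs_self _
          · exact le_abs_self _
  · intro V _ _ G D hD Ω _ μ _ X hX
    obtain ⟨hlaw, hmon⟩ := hP V G Ω μ X hX
    set n := Fintype.card V with hn
    have hnonneg : 0 ≤ 2 * (n : ℝ)⁻¹ := by positivity
    beta_reduce
    by_cases hnN : n < N
    · refine prob_le_one.trans ?_
      rw [if_pos hnN]
      rw [← ENNReal.ofReal_one]
      refine ENNReal.ofReal_le_ofReal ?_
      have := abs_nonneg (η3 n)
      have := abs_nonneg (η4 n)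
      linarith
    rw [if_neg hnN, zero_add]
    push Not at hnN
    have hn1 : n1 ≤ n := (le_max_left _ _).trans hnN
    have hn2 : n2 ≤ n := (le_max_right _ _).trans hnN
    set m := C2 * R₂ G * n with hm
    have b1 := h1 V G D hD hn1
    have b2 := h2 V G D hD hn2 m le_rfl
    rw [← hlaw] at b1 b2
    have hsub : {ω | ¬ ((Xmax X n ω : ℝ) ≤ max (C1 : ℝ) C2 * R₁ G ∧ Covers X ω ∧
            (Tcov X ω : ℝ) ≤ max (C1 : ℝ) C2 * R₂ G * n)} ⊆
        ({ω | ∃ v, C1 * R₁ G < X n ω v} ∪ {ω | ∃ v, X m ω v = 0}) := by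
      intro ω hω
      by_contra hnot
      simp only [Set.mem_union, Set.mem_setOf_eq, not_or, not_exists, not_lt] at hnot
      obtain ⟨a1, a2⟩ := hnot
      apply hω
      have hcov : ∀ v, 1 ≤ X m ω v := fun v => Nat.one_le_iff_ne_zero.2 (a2 v)
      have hC : Covers X ω := ⟨m, hcov⟩
      refine ⟨?_, hC, ?_⟩
      · have : (Xmax X n ω : ℝ) ≤ ((C1 * R₁ G : ℕ) : ℝ) := by
          exact_mod_cast Fin_.xmax_le a1
        refine this.trans ?_
        push_cast
        exact mul_le_mul_of_nonneg_right (le_max_left _ _) (by positivity)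
      · have h5 : (Tcov X ω : ℝ) ≤ (m : ℝ) := by exact_mod_cast Fin_.tcov_le hcov
        refine h5.trans ?_
        rw [hm]
        push_cast
        gcongr
        exact le_max_right _ _
    calc μ {ω | ¬ ((Xmax X n ω : ℝ) ≤ max (C1 : ℝ) C2 * R₁ G ∧ Covers X ω ∧
            (Tcov X ω : ℝ) ≤ max (C1 : ℝ) C2 * R₂ G * n)}
        ≤ _ := measure_mono hsub
      _ ≤ μ {ω | ∃ v, C1 * R₁ G < X n ω v} + μ {ω | ∃ v, X m ω v = 0} := measure_union_le _ _
      _ ≤ (n : ℝ≥0∞)⁻¹ + (n : ℝ≥0∞)⁻¹ := add_le_add b1 b2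
      _ ≤ ENNReal.ofReal (2 * (n : ℝ)⁻¹ + |η3 n| + |η4 n|) := by
          have hnpos : 0 < (n : ℝ) := by
            have : 0 < n := Fintype.card_pos
            exact_mod_cast this
          have e1 : (n : ℝ≥0∞)⁻¹ = ENNReal.ofReal ((n : ℝ)⁻¹) := by
            rw [ENNReal.ofReal_inv_of_pos hnpos, ENNReal.ofReal_natCast]
          rw [e1, ← ENNReal.ofReal_add (by positivity) (by positivity), ← two_mul]
          refine ENNReal.ofReal_le_ofReal ?_
          have := abs_nonneg (η3 n)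
          have := abs_nonneg (η4 n)
          linarith
  · exact hE

end

end Helper43.LSA
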