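import Mathlib
import Pool.Agent.Helper43_LSA.Stmts

/-!
# Module LOWN
-/

namespace Helper43.LSA

open Classical
open scoped ENNReal

set_option linter.unusedSectionVars false

noncomputable section

namespace Lown

variable {V : Type} [Fintype V]

theorem pr_bind {α β : Type} (P : PMF α) (f : α → PMF β) (S : β → Prop) :
    pr (P.bind f) S = ex P fun a => pr (f a) S := by
  unfold pr; rw [ex_bind]

theorem mul_pr_le {α : Type} (P : PMF α) (S : α → Prop) (c : ℝ≥0∞) (f : α → ℝ≥0∞)
    (h : ∀ a ∈ P.support, S a → c ≤ f a) : c * pr P S ≤ ex P f := by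
  unfold pr
  rw [← ex_mul_left]
  refine ex_mono P fun a ha => ?_
  by_cases hS : S a
  · rw [if_pos hS, mul_one]; exact h a ha hS
  · rw [if_neg hS, mul_zero]; exact zero_le

theorem pr_eq_zero {α : Type} (P : PMF α) (S : α → Prop) (h : ∀ a ∈ P.support, ¬ S a) :
    pr P S = 0 := by
  unfold pr
  rw [ex_congr P (g := fun _ => 0) fun a ha => if_neg (h a ha), ex_const]

theorem mlow_zero (G : SimpleGraph V) (X : V → ℕ) (A : Finset V) : mlow G 0 X A = 0 := by
  simp [mlow]

theorem ball_cl (hGeo : GeoStmt) {G : SimpleGraph V} {X : V → ℕ} (hX : Smooth G X) {k : ℕ}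
    {v : V} (hv : X v = 0) (i : ℕ) (hi : i < k) :
    ∀ w ∈ ball G v i, X w ≤ i ∧ w ∈ Cl G k X {v} := by
  induction i with
  | zero =>
    intro w hw
    rw [hGeo.ball_zero, Finset.mem_singleton] at hw
    subst hw
    refine ⟨hv.le, ?_⟩
    simp only [Cl, Finset.mem_filter, Finset.mem_univ, true_and]
    exact ⟨w, Finset.mem_singleton_self w, by omega, Relation.ReflTransGen.refl⟩
  | succ i ih =>
    intro w hw
    rw [hGeo.ball_succ, cns, Finset.mem_biUnion] at hw
    obtain ⟨u, hu, hw⟩ := hw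
    obtain ⟨h1, h2⟩ := ih (by omega) u hu
    rw [mem_cn] at hw
    rcases hw with rfl | hadj
    · exact ⟨by omega, h2⟩
    · have h3 : X w ≤ X u + 1 := hX w u hadj.symm
      refine ⟨by omega, ?_⟩
      simp only [Cl, Finset.mem_filter, Finset.mem_univ, true_and] at h2 ⊢
      obtain ⟨r, hr, hr2, h⟩ := h2
      exact ⟨r, hr, hr2, h.tail ⟨hadj, by omega⟩⟩

theorem sum_ball_le (hGeo : GeoStmt) {G : SimpleGraph V} {X : V → ℕ} (hX : Smooth G X) (k : ℕ)
    {v : V} (hv : X v = 0) :
    ∑ i ∈ Finset.range k, (ball G v i).card ≤ mlow G k X {v} := by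
  have h1 : ∑ i ∈ Finset.range k, (ball G v i).card =
      ∑ w, ((Finset.range k).filter fun i => w ∈ ball G v i).card := by
    simp_rw [Finset.card_filter]
    rw [Finset.sum_comm]
    refine Finset.sum_congr rfl fun i _ => ?_
    rw [← Finset.card_filter]
    congr 1
    ext w; simp
  rw [h1]
  unfold mlow
  have h2 : ∀ w, ((Finset.range k).filter fun i => w ∈ ball G v i).card ≤
      if w ∈ Cl G k X {v} then k - X w else 0 := by
    intro w
    by_cases hne : ((Finset.range k).filter fun i => w ∈ ball G v i).Nonempty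
    · obtain ⟨i, hi⟩ := hne
      rw [Finset.mem_filter, Finset.mem_range] at hi
      rw [if_pos (ball_cl hGeo hX hv i hi.1 w hi.2).2]
      calc ((Finset.range k).filter fun i => w ∈ ball G v i).card
          ≤ (Finset.Ico (X w) k).card := by
            refine Finset.card_le_card fun j hj => ?_
            rw [Finset.mem_filter, Finset.mem_range] at hj
            rw [Finset.mem_Ico]
            exact ⟨(ball_cl hGeo hX hv j hj.1 w hj.2).1, hj.1⟩
        _ = k - X w := Nat.card_Ico _ _
    · rw [Finset.not_nonempty_iff_eq_empty] at hne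
      rw [hne]; simp
  calc ∑ w, ((Finset.range k).filter fun i => w ∈ ball G v i).card
      ≤ ∑ w, if w ∈ Cl G k X {v} then k - X w else 0 := Finset.sum_le_sum fun w _ => h2 w
    _ = ∑ w ∈ Cl G k X {v}, (k - X w) := by
        rw [Finset.sum_ite_mem]; simp

theorem phases (hL : LowphStmt) [Nonempty V] {G : SimpleGraph V} {D : ℕ} (hD : 1 ≤ D)
    (hG : Reg G D) (k : ℕ) : ∀ A : Finset V,
    ex (chain G (unif V) (3500 * k * Fintype.card V) 0) (fun X => 2 ^ mlow G k X A) ≤
      (1 + dl3 D) ^ A.card := by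
  induction k with
  | zero =>
    intro A
    simp only [mul_zero, zero_mul]
    rw [ex_chain_zero, mlow_zero, pow_zero]
    exact one_le_pow₀ (by simp)
  | succ k ih =>
    intro A
    have h := hL V G D hD hG k (chain G (unif V) (3500 * k * Fintype.card V) 0)
      (fun X hX => smooth_of_chain (smooth_zero G) hX) ih A
    have e : 3500 * (k + 1) * Fintype.card V =
        3500 * k * Fintype.card V + 3500 * Fintype.card V := by ring
    rw [e, chain_add]
    exact h

end Lown

/-- Module LOWN -/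
theorem lown (hL : LowphStmt) (hGeo : GeoStmt) : LowerStmt := by
  intro V _ _ G D hD hG k m hm v
  set S := ∑ i ∈ Finset.range k, (ball G v i).card with hS
  set l := 3500 * k * Fintype.card V with hl
  have h1 : pr (chain G (unif V) m 0) (fun X => X v = 0) ≤
      pr (chain G (unif V) l 0) (fun X => X v = 0) := by
    obtain ⟨j, rfl⟩ := Nat.exists_eq_add_of_le hm
    rw [chain_add, Lown.pr_bind]
    unfold pr
    refine ex_mono _ fun X _ => ?_
    by_cases hX : X v = 0
    · rw [if_pos hX]
      exact pr_le_one _ _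
    · rw [if_neg hX]
      refine le_of_eq (Lown.pr_eq_zero _ _ fun Y hY h0 => ?_)
      have h1 : X v ≤ Y v := le_of_chain hY v
      have h2 : Y v = 0 := h0
      have h3 : ¬ X v = 0 := hX
      omega
  have h2 : (2 : ℝ≥0∞) ^ S * pr (chain G (unif V) l 0) (fun X => X v = 0) ≤ 2 := by
    calc (2 : ℝ≥0∞) ^ S * pr (chain G (unif V) l 0) (fun X => X v = 0)
        ≤ ex (chain G (unif V) l 0) (fun X => 2 ^ mlow G k X {v}) := by
          refine Lown.mul_pr_le _ _ _ _ fun X hX hv => ?_
          have hsm : Smooth G X := smooth_of_chain (smooth_zero G) hX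
          exact pow_le_pow_right₀ (by norm_num) (Lown.sum_ball_le hGeo hsm k hv)
      _ ≤ (1 + dl3 D) ^ ({v} : Finset V).card := Lown.phases hL hD hG k {v}
      _ = 1 + dl3 D := by simp
      _ ≤ 1 + 1 := by
          gcongr
          unfold dl3
          have hD1 : (2 : ℝ≥0∞) ≤ (D : ℝ≥0∞) + 1 := by
            have : ((1 : ℕ) : ℝ≥0∞) ≤ (D : ℝ≥0∞) := by exact_mod_cast hD
            calc (2 : ℝ≥0∞) = ((1 : ℕ) : ℝ≥0∞) + 1 := by norm_num
              _ ≤ _ := by gcongr
          have h8 : (2 : ℝ≥0∞) ≤ ((D : ℝ≥0∞) + 1) ^ 3 := by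
            calc (2 : ℝ≥0∞) ≤ 2 ^ 3 := by norm_num
              _ ≤ _ := by gcongr
          rw [← div_eq_mul_inv]
          exact ENNReal.div_le_of_le_mul (by simpa using h8)
      _ = 2 := by norm_num
  refine h1.trans ?_
  have h3 : pr (chain G (unif V) l 0) (fun X => X v = 0) =
      ((2 : ℝ≥0∞) ^ S)⁻¹ * (2 ^ S * pr (chain G (unif V) l 0) (fun X => X v = 0)) := by
    rw [← mul_assoc, ENNReal.inv_mul_cancel (by positivity) (by finiteness), one_mul]
  rw [h3]
  calc ((2 : ℝ≥0∞) ^ S)⁻¹ * (2 ^ S * pr (chain G (unif V) l 0) (fun X => X v = 0))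
      ≤ ((2 : ℝ≥0∞) ^ S)⁻¹ * 2 := by gcongr
    _ = 2 * (1 / 2) ^ S := by
        rw [mul_comm, one_div, ENNReal.inv_pow]

end

end Helper43.LSA
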