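import Mathlib
import Pool.Agent.Helper43_LSA.Fin
import Pool.Agent.Helper43_LSA.Lown
import Pool.Agent.Helper43_LSA.Drift
import Pool.Agent.Helper8_LSA.CLS
import Pool.Agent.Helper8_LSA.ENUM
import Pool.Agent.Helper8_LSA.LPA
import Pool.Agent.Helper8_LSA.LPB
import Pool.Agent.Helper9_LSA.LPC
import Pool.Agent.Helper9_LSA.UPPH
import Pool.Agent.Helper76_LSA.Geo
import Pool.Agent.Helper76_LSA.Iid
import Pool.Agent.Helper76_LSA.Clos
import Pool.Agent.Helper76_LSA.Upr
import Pool.Agent.Helper76_LSA.Lowr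
import Pool.Agent.Helper76_LSA.Upn
import Pool.Agent.Helper76_LSA.Lowph
import Pool.Agent.Helper85_LSA.EX
import Pool.Agent.Helper85_LSA.PROC
import Pool.Agent.Helper85_LSA.XUP
import Pool.Agent.Helper85_LSA.TUP
import Pool.Agent.Helper72_LSA.Hitp
import Pool.Agent.Helper72_LSA.Xlod
import Pool.Agent.Helper72_LSA.Xlo
import Pool.Agent.Helper72_LSA.Tlo

/-!
# Assembly
-/

namespace Helper43.LSA

theorem geo' : GeoStmt := Helper76.LSA.geo
theorem enum' : EnumStmt := Helper8.LSA.enum Helper8.LSA.cls geo'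
theorem upph' : UpphStmt := Helper9.LSA.upph Helper76.LSA.clos Helper76.LSA.upr enum'
theorem upper' : UpperStmt := Helper76.LSA.upn upph' geo'
theorem xup' : XupStmt := Pool.Agent.LSA.H85.xup_stmt upper'
theorem lpc' : LpcStmt := Helper9.LSA.lpc Helper8.LSA.lpa enum'
theorem drift' : DriftStmt := drift Helper8.LSA.lpa Helper8.LSA.lpb
theorem lowph' : LowphStmt := Helper76.LSA.lowph Helper8.LSA.lpa lpc' Helper76.LSA.lowr drift'
theorem lower' : LowerStmt := lown lowph' geo'
theorem tup' : TupStmt := Pool.Agent.LSA.H85.tup_stmt lower' geo'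

theorem xlo' : XloStmt :=
  Helper72.LSA.xlo Helper76.LSA.iid_stmt Helper72.LSA.hitp Helper72.LSA.xlod geo'
theorem tlo' : TloStmt :=
  Helper72.LSA.tlo upper' Helper76.LSA.iid_stmt Helper72.LSA.tlod geo'

/-- everything -/
theorem all : FinStmt :=
  fin xup' tup' xlo' tlo' Pool.Agent.LSA.H85.proc_stmt Pool.Agent.LSA.H85.ex_stmt geo'

end Helper43.LSA
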